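import Pool.Agent.P.MP_b1ffdf_al.Chars

set_option autoImplicit false

open CategoryTheory Classical Finset Polynomial

namespace Pool.Agent.P.MP_b1ffdf_al

/-- The ring of all algebraic integers in the complex numbers. -/
abbrev OO : Type := integralClosure ℤ ℂ

theorem interp {ι : Type*} (𝔓 : Ideal OO) (h𝔓 : 𝔓.IsPrime) (I0 I1 : Finset ι) (μ : ι → OO)
    (l : OO[X]) (h1 : ∀ i ∈ I1, l.eval (μ i) ∉ 𝔓) (h2 : ∀ i ∈ I1, ∀ j ∈ I0, μ i - μ j ∉ 𝔓) :
    ∃ (r : OO[X]) (s : OO), s ∉ 𝔓 ∧ (∀ i ∈ I1, (l * r).eval (μ i) = s) ∧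
      ∀ j ∈ I0, (l * r).eval (μ j) = 0 := by
  let b : OO[X] := ∏ j ∈ I0, (X - C (μ j))
  let c : OO[X] := ∏ i ∈ I1, (C ((l * b).eval (μ i)) - X)
  refine ⟨b * (-c.divX).comp (l * b), c.coeff 0, ?_, fun i hi => ?_, fun j hj => ?_⟩
  · rw [coeff_zero_eq_eval_zero]
    simp only [c, b, eval_prod, eval_sub, eval_C, eval_X, sub_zero, eval_mul]
    rw [Ideal.IsPrime.prod_mem_iff]
    rintro ⟨i, hi, h⟩
    rcases h𝔓.mem_or_mem h with h | h
    · exact h1 i hi h
    · obtain ⟨j, hj, h⟩ := Ideal.IsPrime.prod_mem_iff.1 h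
      exact h2 i hi j hj h
  · have e1 : c.eval ((l * b).eval (μ i)) = 0 := by
      simp only [c, eval_prod]
      exact Finset.prod_eq_zero hi (by simp)
    have e2 := congrArg (Polynomial.eval ((l * b).eval (μ i))) (X_mul_divX_add c)
    rw [e1, eval_add, eval_mul (p := X), eval_X, eval_C] at e2
    rw [← mul_assoc, eval_mul, eval_comp, eval_neg]
    linear_combination -e2
  · have : b.eval (μ j) = 0 := by
      simp only [b, eval_prod]
      exact Finset.prod_eq_zero hj (by simp)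
    simp [this]

theorem green_core {V : Type} [AddCommGroup V] [Module ℂ V] [FiniteDimensional ℂ V]
    (𝔓 : Ideal OO) (h𝔓 : 𝔓.IsPrime) (Λ : Subalgebra OO (Module.End ℂ V))
    (hΛ : Λ.toSubmodule.FG) {g y y' c : Module.End ℂ V} {s π : OO} {ξ : ℂ} (hs : s ∉ 𝔓)
    (hπ : π ∈ 𝔓) (hξ : ξ ≠ 1) (hy : y ∈ Λ) (hy' : y' ∈ Λ) (hc : c ∈ Λ) (h1 : Commute g y)
    (h2 : Commute g y') (hE : y * y' * (y * y') = s • (y * y'))
    (hT : g * (y + π • c) = ξ • ((y + π • c) * g)) : LinearMap.trace ℂ V (g * (y * y')) = 0 := by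
  obtain ⟨E, hEd⟩ : ∃ E, E = y * y' := ⟨_, rfl⟩
  have hEΛ : E ∈ Λ := hEd ▸ mul_mem hy hy'
  have hgE : Commute g E := hEd ▸ h1.mul_right h2
  rw [← hEd] at hE ⊢
  obtain ⟨U, hU⟩ : ∃ U, U = E * (y + π • c) * y' * E := ⟨_, rfl⟩
  have hU1 : U = (s * s) • E + π • (E * c * y' * E) := by
    rw [hU, mul_add, add_mul, add_mul, mul_assoc E y, ← hEd, hE, smul_mul_assoc, hE, smul_smul]
    simp
  obtain ⟨S, hS⟩ : ∃ S, S = (s * s * s) • (1 : Module.End ℂ V) + π • (E * c * y' * E) := ⟨_, rfl⟩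
  have hS1 : S = U + (s * s) • (s • 1 - E) := by rw [hS, hU1, smul_sub, smul_smul]; abel
  have hEU : E * U = s • U := by
    rw [hU, ← mul_assoc, ← mul_assoc, ← mul_assoc, hE]; simp
  have hUE : U * E = s • U := by
    rw [hU, mul_assoc _ E E, hE]; simp
  have hES : E * S = s • U := by
    rw [hS1, mul_add, hEU, mul_smul_comm, mul_sub, hE]; simp
  have hSE : S * E = s • U := by
    rw [hS1, add_mul, hUE, smul_mul_assoc, sub_mul, hE]; simp
  have hgU : g * U = ξ • (U * g) := by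
    rw [hU, ← mul_assoc, ← mul_assoc, ← mul_assoc, hgE.eq, mul_assoc E g, hT, mul_smul_comm,
      smul_mul_assoc, smul_mul_assoc]
    congr 1
    simp only [mul_assoc]
    rw [← mul_assoc g, h2.eq, mul_assoc, hgE.eq]
  have hinj : IsUnit S := by
    rw [LinearMap.isUnit_iff_ker_eq_bot, LinearMap.ker_eq_bot']
    intro v hv
    by_contra hv0
    have hπ0 : (π : ℂ) ≠ 0 := by
      intro h
      have h0 : π = 0 := Subtype.ext h
      rw [hS, h0, zero_smul, add_zero] at hv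
      have : ((s * s * s : OO) : ℂ) • v = 0 := hv
      have h3 : s * s * s = 0 := Subtype.ext ((smul_eq_zero.1 this).resolve_right hv0)
      simp only [mul_eq_zero, or_self] at h3
      exact hs (h3 ▸ 𝔓.zero_mem)
    have hev : (E * c * y' * E) v = (-((s * s * s : OO) : ℂ) / π) • v := by
      have : ((s * s * s : OO) : ℂ) • v + (π : ℂ) • (E * c * y' * E) v = 0 := by
        rw [hS] at hv; exact hv
      apply smul_right_injective V hπ0
      simp only [smul_smul]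
      rw [mul_div_cancel₀ _ hπ0, neg_smul, eq_neg_iff_add_eq_zero, add_comm, this]
    obtain ⟨P, hP, hP0⟩ := IsIntegral.of_mem_of_fg Λ hΛ _
      (mul_mem (mul_mem (mul_mem hEΛ hc) hy') hEΛ)
    have h3 := Module.End.aeval_apply_of_mem_apply_eq_smul (p := P.map (algebraMap OO ℂ)) hev
    rw [aeval_map_algebraMap, aeval_def, hP0, Polynomial.eval_map] at h3
    have h4 : IsIntegral OO (-((s * s * s : OO) : ℂ) / π) :=
      ⟨P, hP, (smul_eq_zero.1 h3.symm).resolve_right hv0⟩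
    have h5 : IsIntegral ℤ (-((s * s * s : OO) : ℂ) / π) := isIntegral_trans _ h4
    have h6 : s * s * s = -⟨_, h5⟩ * π := Subtype.ext (by
      simp only [MulMemClass.coe_mul, NegMemClass.coe_neg]
      field_simp)
    have h7 : s * s * s ∈ 𝔓 := h6 ▸ 𝔓.mul_mem_left _ hπ
    rcases h𝔓.mem_or_mem h7 with h | h
    · exact hs ((h𝔓.mem_or_mem h).elim id id)
    · exact hs h
  obtain ⟨S', rfl⟩ := hinj
  have h8 : g * E * S' = ξ • (S' * (g * E)) := by
    rw [mul_assoc, hES, hgE.eq, ← mul_assoc, hSE, mul_smul_comm, hgU, smul_mul_assoc, smul_comm]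
  have h9 : g * E = ξ • (S' * (g * E) * (S'⁻¹ : (Module.End ℂ V)ˣ)) := by
    rw [← smul_mul_assoc, ← h8, Units.mul_inv_cancel_right]
  have h10 := congrArg (LinearMap.trace ℂ V) h9
  rw [map_smul, LinearMap.trace_mul_comm ℂ (S' * (g * E) : Module.End ℂ V),
    Units.inv_mul_cancel_left, smul_eq_mul] at h10
  by_contra h
  exact hξ ((mul_eq_right₀ h).1 h10.symm)

theorem exists_level {α : Type*} [Finite α] (κ : Equiv.Perm α) (p : ℕ) :
    ∃ l : α → ℕ, ∀ h, (∀ i : ℕ, (κ ^ i) h = h → p ∣ i) → l (κ h) ≡ l h + 1 [MOD p] := by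
  let r : α → α := fun h => (Quotient.mk (Equiv.Perm.SameCycle.setoid κ) h).out
  have h1 : ∀ h, ∃ i : ℕ, (κ ^ i) (r h) = h := fun h =>
    Equiv.Perm.SameCycle.exists_nat_pow_eq (Quotient.mk_out (s := Equiv.Perm.SameCycle.setoid κ) h)
  choose l hl using h1
  refine ⟨l, fun h hh => ?_⟩
  have h2 : r (κ h) = r h := congrArg Quotient.out (Quotient.sound
    (show κ.SameCycle (κ h) h from Equiv.Perm.sameCycle_apply_left.2 (Equiv.Perm.SameCycle.refl _ _)))
  have key : ∀ i j : ℕ, (κ ^ (i + j)) (r h) = (κ ^ i) (r h) → p ∣ j := by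
    intro i j e
    apply hh
    have e2 : (κ ^ j) (r h) = r h := (κ ^ i).injective (by
      rw [← Equiv.Perm.mul_apply, ← pow_add, e])
    conv_lhs => rw [← hl h, ← Equiv.Perm.mul_apply, ← pow_add, add_comm, pow_add,
      Equiv.Perm.mul_apply, e2, hl h]
  have h3 : (κ ^ l (κ h)) (r h) = (κ ^ (l h + 1)) (r h) := by
    rw [pow_succ', Equiv.Perm.mul_apply, hl h, ← h2, hl]
  rcases le_total (l (κ h)) (l h + 1) with h4 | h4
  · obtain ⟨j, hj⟩ := Nat.exists_eq_add_of_le h4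
    rw [hj] at h3 ⊢
    exact (Nat.modEq_iff_dvd' (Nat.le_add_right _ _)).2 (by simpa using key _ _ h3.symm)
  · obtain ⟨j, hj⟩ := Nat.exists_eq_add_of_le h4
    rw [hj] at h3 ⊢
    exact ((Nat.modEq_iff_dvd' (Nat.le_add_right _ _)).2 (by simpa using key _ _ h3)).symm

variable {G : Type} [Group G] [Fintype G]

theorem lam_fg (V : FDRep ℂ G) : (Algebra.adjoin OO (Set.range V.ρ)).toSubmodule.FG := by
  rw [Algebra.adjoin_eq_span]
  refine Submodule.fg_span (Set.Finite.subset (Set.finite_range V.ρ) ?_)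
  exact (Submonoid.closure_le (S := MonoidHom.mrange V.ρ)).2 subset_rfl

theorem green (V : FDRep ℂ G) {p : ℕ} (hp : p.Prime) (𝔓 : Ideal OO) (h𝔓 : 𝔓.IsPrime)
    (hp𝔓 : (p : OO) ∈ 𝔓) (g : G) (L : Finset G) (hL : ∀ h, g * h * g⁻¹ ∈ L ↔ h ∈ L)
    (hfree : ∀ h ∈ L, ∀ i : ℕ, Commute (g ^ i) h → p ∣ i) {y' : Module.End ℂ V} {s : OO}
    (hs : s ∉ 𝔓) (hy' : y' ∈ Algebra.adjoin OO (Set.range V.ρ)) (h2 : Commute (V.ρ g) y')
    (hE : (∑ h ∈ L, V.ρ h) * y' * ((∑ h ∈ L, V.ρ h) * y') = s • ((∑ h ∈ L, V.ρ h) * y')) :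
    LinearMap.trace ℂ V (V.ρ g * ((∑ h ∈ L, V.ρ h) * y')) = 0 := by
  have hζ := Complex.isPrimitiveRoot_exp p hp.pos.ne'
  obtain ⟨z, hz⟩ : ∃ z : OO, IsPrimitiveRoot (z : ℂ) p := ⟨⟨_, hζ.isIntegral hp.pos⟩, hζ⟩
  have hz0 : (z : ℂ) ≠ 0 := hz.ne_zero hp.pos.ne'
  have hzp : z ^ p = 1 := Subtype.ext hz.pow_eq_one
  obtain ⟨l, hl⟩ := exists_level (MulAut.conj g).toEquiv p
  have hconj : ∀ c : G → ℂ, V.ρ g * (∑ h ∈ L, c (g * h * g⁻¹) • V.ρ h) =
      (∑ h ∈ L, c h • V.ρ h) * V.ρ g := by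
    intro c
    rw [Finset.mul_sum, Finset.sum_mul]
    refine Finset.sum_equiv (MulAut.conj g).toEquiv (fun h => (hL h).symm) fun h _ => ?_
    simp [← map_mul]
  have hmem : ∀ c : G → OO, ∑ h ∈ L, c h • V.ρ h ∈ Algebra.adjoin OO (Set.range V.ρ) :=
    fun c => Subalgebra.sum_mem _ fun h _ =>
      Subalgebra.smul_mem _ (Algebra.subset_adjoin (Set.mem_range_self h)) _
  refine green_core 𝔓 h𝔓 _ (lam_fg V) (c := ∑ h ∈ L, (∑ j ∈ range (l h), z ^ j) • V.ρ h)
    (π := z - 1) (ξ := (z : ℂ)⁻¹) hs ?_ ?_ (by simpa using hmem 1) hy' (hmem _) ?_ h2 hE ?_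
  · obtain ⟨r, hr⟩ := exists_add_pow_prime_eq hp (z - 1) 1
    rw [sub_add_cancel, hzp, one_pow] at hr
    have : (z - 1) ^ p = -(p * (z - 1) * 1 * r) := by linear_combination -hr
    refine h𝔓.mem_of_pow_mem p (this ▸ 𝔓.neg_mem ?_)
    rw [mul_assoc, mul_assoc]
    exact 𝔓.mul_mem_right _ hp𝔓
  · exact fun h => hz.ne_one hp.one_lt (inv_eq_one.1 h)
  · simpa [Commute, SemiconjBy] using hconj 1
  · have e1 : ∑ h ∈ L, V.ρ h + (z - 1) • ∑ h ∈ L, (∑ j ∈ range (l h), z ^ j) • V.ρ h =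
        ∑ h ∈ L, (z : ℂ) ^ l h • V.ρ h := by
      rw [Finset.smul_sum, ← Finset.sum_add_distrib]
      refine Finset.sum_congr rfl fun h _ => ?_
      rw [smul_smul, mul_geom_sum, sub_smul, one_smul, add_sub_cancel]
      rfl
    rw [e1, ← hconj, ← mul_smul_comm, Finset.smul_sum]
    congr 1
    refine Finset.sum_congr rfl fun h hh => ?_
    have e2 := hl h fun i hi => hfree h hh i (by
      have : ∀ i : ℕ, ((MulAut.conj g).toEquiv ^ i) h = g ^ i * h * (g ^ i)⁻¹ := by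
        intro i
        induction i with
        | zero => simp
        | succ i ih => rw [pow_succ', Equiv.Perm.mul_apply, ih, pow_succ']; simp [mul_assoc]
      rw [this] at hi
      exact mul_inv_eq_iff_eq_mul.1 hi)
    have e3 : (z : ℂ) ^ l (g * h * g⁻¹) = z ^ (l h + 1) :=
      (hz.isOfFinOrder hp.pos.ne').pow_eq_pow_iff_modEq.2 (hz.eq_orderOf ▸ e2)
    rw [e3, smul_smul, pow_succ', inv_mul_cancel_left₀ hz0]

theorem poly_coeff (F : G → ℂ) (q : OO[X]) : ∃ c : G → ℂ, ∀ (U : Type) [AddCommGroup U]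
    [Module ℂ U] (ρ : Representation ℂ G U),
      aeval (∑ h, F h • ρ h) q = ∑ h, c h • ρ h := by
  induction q using Polynomial.induction_on with
  | C a =>
    refine ⟨fun h => if h = 1 then a else 0, fun U _ _ ρ => ?_⟩
    simp [Algebra.algebraMap_eq_smul_one]
    rfl
  | add q q' h1 h2 =>
    obtain ⟨c, hc⟩ := h1
    obtain ⟨c', hc'⟩ := h2
    exact ⟨c + c', fun U _ _ ρ => by simp [hc, hc', add_smul, Finset.sum_add_distrib]⟩
  | monomial n a h1 =>
    obtain ⟨c, hc⟩ := h1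
    refine ⟨fun k => ∑ h, c h * F (h⁻¹ * k), fun U _ _ ρ => ?_⟩
    rw [pow_succ, ← mul_assoc, map_mul, hc, aeval_X, Finset.sum_mul_sum]
    simp only [Finset.sum_smul]
    rw [Finset.sum_comm (s := univ) (t := univ) (f := fun k h => (c h * F (h⁻¹ * k)) • ρ k)]
    refine Finset.sum_congr rfl fun h _ => ?_
    rw [← Equiv.sum_comp (Equiv.mulLeft h⁻¹)]
    refine Finset.sum_congr rfl fun k _ => ?_
    simp [← map_mul, smul_smul, mul_comm]

theorem scalar_integral (V : FDRep ℂ G) (hV : Simple V) (L : Finset G) {c : ℂ}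
    (hc : ∑ h ∈ L, V.ρ h = c • 1) : IsIntegral ℤ c := by
  obtain ⟨d, hd, hd1⟩ := IsIrr.one_ne_zero ⟨V, hV, rfl⟩
  haveI : Nontrivial V := by
    rw [V.char_one] at hd1
    exact (Module.finrank_pos_iff (R := ℂ)).1 (by rwa [Nat.cast_injective hd1])
  have h3 : IsIntegral OO (algebraMap ℂ (Module.End ℂ V) c) := by
    rw [Algebra.algebraMap_eq_smul_one, ← hc]
    exact IsIntegral.of_mem_of_fg _ (lam_fg V) _
      (Subalgebra.sum_mem _ fun x _ => Algebra.subset_adjoin ⟨x, rfl⟩)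
  exact isIntegral_trans _ ((isIntegral_algHom_iff (IsScalarTower.toAlgHom OO ℂ (Module.End ℂ V))
    (algebraMap ℂ (Module.End ℂ V)).injective).1 h3)

theorem sum_ind {β : Type*} [AddCommGroup β] [Module ℂ β] (L : Finset G) (f : G → β) :
    ∑ h, (if h ∈ L then (1 : ℂ) else 0) • f h = ∑ h ∈ L, f h := by
  simp

theorem exists_omega (L : Finset G) (hL : ∀ h y, y * h * y⁻¹ ∈ L ↔ h ∈ L) :
    ∃ ω : (G → ℂ) → OO, ∀ (q : OO[X]) (U : Type) [AddCommGroup U] [Module ℂ U]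
      [FiniteDimensional ℂ U] (ρ : Representation ℂ G U),
      (∀ g, LinearMap.trace ℂ U (ρ g * aeval (∑ h ∈ L, ρ h) q) =
        ∑ η ∈ irrs G, ip ρ.character η * ((q.eval (ω η) : OO) * η g)) ∧
      ((∀ η ∈ irrs G, q.eval (ω η) = 0) → aeval (∑ h ∈ L, ρ h) q = 0) := by
  have hF : IsClass fun h => if h ∈ L then (1 : ℂ) else 0 := fun h y => by simp only [hL]
  have h1 : ∀ η : G → ℂ, IsIrr η → ∃ (w : OO) (V : FDRep ℂ G), V.character = η ∧
      ∑ h ∈ L, V.ρ h = w • 1 := by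
    rintro _ ⟨V, hV, rfl⟩
    obtain ⟨c, hc⟩ := schur V hV _ (class_comm V hF)
    rw [sum_ind] at hc
    exact ⟨⟨c, scalar_integral V hV L hc⟩, V, rfl, hc⟩
  choose! ω hω using h1
  refine ⟨ω, fun q => ?_⟩
  obtain ⟨c, hc⟩ := poly_coeff (fun h => if h ∈ L then (1 : ℂ) else 0) q
  simp only [sum_ind] at hc
  have h2 : ∀ (U : Type) [AddCommGroup U] [Module ℂ U] (ρ : Representation ℂ G U) (g : G),
      LinearMap.trace ℂ U (ρ g * aeval (∑ h ∈ L, ρ h) q) = ∑ h, c h * ρ.character (g * h) := by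
    intro U _ _ ρ g
    simp [hc, Finset.mul_sum, Representation.character]
  have h3 : ∀ θ, IsClass θ → ∀ g, ∑ h, c h * θ (g * h) =
      ∑ η ∈ irrs G, ip θ η * ((q.eval (ω η) : OO) * η g) := by
    intro θ hθ g
    conv_lhs => rw [expand hθ]
    simp only [Finset.sum_apply, Pi.smul_apply, smul_eq_mul, Finset.mul_sum]
    rw [Finset.sum_comm]
    refine Finset.sum_congr rfl fun η hη => ?_
    obtain ⟨V, rfl, hV⟩ := hω η (mem_irrs.1 hη)
    have e := h2 V V.ρ g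
    rw [hV, ← Algebra.algebraMap_eq_smul_one, aeval_algebraMap_apply_eq_algebraMap_eval,
      Algebra.algebraMap_eq_smul_one, mul_smul_comm, mul_one] at e
    simp only [mul_left_comm (c _), ← Finset.mul_sum]
    congr 1
    exact e.symm.trans (map_smul (LinearMap.trace ℂ V) (_ : ℂ) _)
  intro U _ _ _ ρ
  refine ⟨fun g => by rw [h2, h3 _ (isChar_of_rep ρ).isClass], fun h0 => ?_⟩
  have h4 : c = 0 := by
    ext g
    have := h3 _ isChar_reg.isClass g⁻¹
    rw [Finset.sum_eq_zero (s := irrs G) fun η hη => by simp [h0 η hη]] at this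
    simp only [inv_mul_eq_one, mul_ite, mul_zero, Finset.sum_ite_eq, mem_univ, if_true] at this
    exact (mul_eq_zero.1 this).resolve_right card_ne
  simp [hc, h4]

end Pool.Agent.P.MP_b1ffdf_al
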