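import Pool.Agent.P.MP_b1ffdf_al.TI
import Pool.Agent.P.MP_b1ffdf_al.Green

set_option autoImplicit false

open CategoryTheory Classical Finset Polynomial

namespace Pool.Agent.P.MP_b1ffdf_al

variable {G : Type} [Group G] [Fintype G]

theorem free_of {p m N : ℕ} (hp : p.Prime) {g h : G} (hg : (g ^ m) ^ p ^ N = 1)
    (hc : ¬ Commute (g ^ m) h) (i : ℕ) (hi : Commute (g ^ i) h) : p ∣ i := by
  by_contra hd
  obtain ⟨j, hj⟩ : g ^ m ∈ Subgroup.zpowers ((g ^ m) ^ i) := mem_zpowers_pow_iff.2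
    (Nat.Coprime.coprime_dvd_right (orderOf_dvd_of_pow_eq_one hg)
      (((Nat.Prime.coprime_iff_not_dvd hp).2 hd).symm.pow_right _))
  apply hc
  rw [← hj]
  refine Commute.zpow_left ?_ j
  rw [← pow_mul, mul_comm, pow_mul]
  exact hi.pow_left m

theorem conj_comm (V : FDRep ℂ G) (g : G) (L : Finset G) (hL : ∀ h, g * h * g⁻¹ ∈ L ↔ h ∈ L) :
    Commute (V.ρ g) (∑ h ∈ L, V.ρ h) := by
  rw [Commute, SemiconjBy, Finset.mul_sum, Finset.sum_mul]
  refine Finset.sum_equiv (MulAut.conj g).toEquiv (fun h => (hL h).symm) fun h _ => ?_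
  simp [← map_mul]

theorem class_sum (V : FDRep ℂ G) (hV : Simple V) (x : G) : ∃ w : OO,
    ∑ h ∈ univ.filter (IsConj x), V.ρ h = w • 1 ∧
      (w : ℂ) = (Subgroup.centralizer {x}).index * V.character x / V.character 1 := by
  obtain ⟨d, hd, hd1⟩ := IsIrr.one_ne_zero ⟨V, hV, rfl⟩
  obtain ⟨c, hc⟩ := schur V hV (∑ h ∈ univ.filter (IsConj x), V.ρ h) fun g =>
    (conj_comm V g _ fun h => by
      simp only [mem_filter, mem_univ, true_and]
      exact ⟨fun e => e.trans (isConj_iff.2 ⟨g, rfl⟩).symm,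
        fun e => e.trans (isConj_iff.2 ⟨g, rfl⟩)⟩).eq.symm
  refine ⟨⟨c, scalar_integral V hV _ hc⟩, hc, ?_⟩
  have h1 := congrArg (LinearMap.trace ℂ V) hc
  simp only [map_sum, map_smul, smul_eq_mul, LinearMap.trace_one] at h1
  rw [Finset.sum_congr rfl (g := fun _ => V.character x) (fun h hh => by
    obtain ⟨y, rfl⟩ := isConj_iff.1 (mem_filter.1 hh).2
    exact V.char_conj x y), Finset.sum_const, nsmul_eq_mul, ← V.char_one] at h1
  have h2 : (Subgroup.centralizer {x}).index = #(univ.filter (IsConj x)) := by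
    have h3 := MulAction.index_stabilizer (ConjAct G) x
    rw [ConjAct.stabilizer_eq_centralizer, ConjAct.orbit_eq_carrier_conjClasses] at h3
    refine Eq.trans h3 ?_
    rw [← Set.ncard_coe_finset]
    congr 1
    ext h
    simp only [ConjClasses.mem_carrier_iff_mk_eq, ConjClasses.mk_eq_mk_iff_isConj, coe_filter,
      mem_univ, true_and, Set.mem_ofPred_eq]
    exact isConj_comm
  have hd0 : V.character 1 ≠ 0 := by rw [hd1]; exact_mod_cast hd.ne'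
  rw [h2, h1, mul_div_cancel_right₀ _ hd0]

theorem part_vanish (V : FDRep ℂ G) {p : ℕ} (hp : p.Prime) (𝔓 : Ideal OO) (h𝔓 : 𝔓.IsPrime)
    (hp𝔓 : (p : OO) ∈ 𝔓) (M : Subgroup G) (L1 : Finset G) (ω : (M → ℂ) → OO)
    (hω : ∀ q : OO[X], (∀ g : M, LinearMap.trace ℂ V (V.ρ g * aeval (∑ h ∈ L1, V.ρ h) q) =
        ∑ η ∈ irrs M, ip (V.character ∘ M.subtype) η * ((q.eval (ω η) : OO) * η g)) ∧
      ((∀ η ∈ irrs M, q.eval (ω η) = 0) → aeval (∑ h ∈ L1, V.ρ h) q = 0))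
    (Q : (M → ℂ) → Prop) [DecidablePred Q] (l : OO[X]) (h1 : ∀ η, Q η → l.eval (ω η) ∉ 𝔓)
    (h2 : ∀ η η', Q η → ¬ Q η' → ω η - ω η' ∉ 𝔓) (L : Finset G)
    (hl : aeval (∑ h ∈ L1, V.ρ h) l = ∑ h ∈ L, V.ρ h) (g : M)
    (hL1 : ∀ h, g * h * (g : G)⁻¹ ∈ L1 ↔ h ∈ L1) (hL : ∀ h, g * h * (g : G)⁻¹ ∈ L ↔ h ∈ L)
    (hfree : ∀ h ∈ L, ∀ i : ℕ, Commute ((g : G) ^ i) h → p ∣ i) :
    ∑ η ∈ (irrs M).filter Q, ip (V.character ∘ M.subtype) η * η g = 0 := by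
  obtain ⟨r, s, hs, e1, e0⟩ := interp 𝔓 h𝔓 ((irrs M).filter fun η => ¬ Q η) ((irrs M).filter Q)
    ω l (fun η hη => h1 η (mem_filter.1 hη).2)
    (fun η hη η' hη' => h2 η η' (mem_filter.1 hη).2 (mem_filter.1 hη').2)
  have ev : ∀ η ∈ irrs M, (l * r).eval (ω η) = if Q η then s else 0 := fun η hη => by
    split_ifs with h
    · exact e1 η (mem_filter.2 ⟨hη, h⟩)
    · exact e0 η (mem_filter.2 ⟨hη, h⟩)
  have hZ : ∑ h ∈ L1, V.ρ h ∈ Algebra.adjoin OO (Set.range V.ρ) :=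
    Subalgebra.sum_mem _ fun h _ => Algebra.subset_adjoin (Set.mem_range_self h)
  have hE := (hω (l * r * (l * r) - C s * (l * r))).2 fun η hη => by
    rw [eval_sub, eval_mul (p := l * r), eval_mul (p := C s), ev η hη, eval_C]
    split_ifs <;> simp
  rw [map_sub, sub_eq_zero, map_mul _ (l * r), map_mul _ (C s), map_mul, hl, aeval_C,
    ← Algebra.smul_def] at hE
  have h3 := green V hp 𝔓 h𝔓 hp𝔓 g L hL hfree hs
    (Algebra.adjoin_le (Set.singleton_subset_iff.2 hZ) (aeval_mem_adjoin_singleton OO _))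
    (Algebra.commute_of_mem_adjoin_singleton_of_commute (aeval_mem_adjoin_singleton OO _)
      (conj_comm V g L1 hL1)) hE
  rw [← hl, ← map_mul, (hω _).1 g, Finset.sum_congr rfl fun η hη => by rw [ev η hη]] at h3
  have hs0 : (s : ℂ) ≠ 0 := fun h => hs ((Subtype.ext h : s = 0) ▸ 𝔓.zero_mem)
  apply mul_left_cancel₀ hs0
  rw [mul_zero, ← h3, Finset.mul_sum, Finset.sum_filter]
  refine Finset.sum_congr rfl fun η _ => ?_
  split_ifs
  · ring
  · simp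

theorem block (V : FDRep ℂ G) (hV : Simple V)
    (hprim : ¬ ∃ (K : Subgroup G) (W : FDRep ℂ K), K ≠ ⊤ ∧
      ∀ g, V.character g = ind K W.character g)
    {p a : ℕ} (hp : p.Prime) (𝔓 : Ideal OO) (h𝔓 : 𝔓.IsPrime) (hp𝔓 : (p : OO) ∈ 𝔓) (x : G)
    (hx : ∀ w ∈ 𝔓, (w : ℂ) ≠ (Subgroup.centralizer {x}).index * V.character x / V.character 1)
    (D : Sylow p (Subgroup.centralizer ({x} : Set G))) (H : Subgroup G) (hH : H ≠ ⊤)
    (hD : ∀ u ∈ D, ∀ v ∈ D, u ^ p ^ a ≠ 1 → ∀ y : G, y * u * y⁻¹ = v → y ∈ H)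
    (hg : ∃ g, V.character g ∉
      IntermediateField.adjoin ℚ {z : ℂ | ∃ m, ¬ p ∣ m ∧ z ^ (m * p ^ a) = 1}) :
    Concl V.character := by
  have hχ : IsIrr V.character := ⟨V, hV, rfl⟩
  obtain ⟨N, m, hm, hn⟩ := split_card (G := G) p hp
  obtain ⟨g0, hg0⟩ := hg
  replace hg0 := lev_mono hm hg0
  have hn0 : 0 < Nat.card G := Nat.card_pos
  have hζ := Complex.isPrimitiveRoot_exp _ hn0.ne'
  obtain ⟨φ0, k0, hφ, -, hk, hne⟩ := exists_k hχ.isChar hζ _ hg0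
  have hu : ∀ g : G, (g ^ m) ^ p ^ N = 1 := fun g => by rw [← pow_mul, ← hn, pow_card_eq_one']
  have hvan : ∀ g : G, (g ^ m) ^ p ^ a = 1 → g ^ k0 = g := fun g hg =>
    pow_eq_self_of (by rwa [pow_mul]) hk
  have hg1 : (g0 ^ m) ^ p ^ a ≠ 1 := fun e => hne (by
    rw [hχ.isChar.map_pow hn0 hζ pow_card_eq_one' hφ, hvan _ e])
  obtain ⟨M, hM, hHM⟩ := (eq_top_or_exists_le_coatom H).resolve_left hH
  obtain ⟨U, hU⟩ : ∃ U : G → Prop, ∀ u, U u ↔
      ∃ y ∈ M, ∃ d ∈ D, d ^ p ^ a ≠ 1 ∧ y * d * y⁻¹ = u := ⟨_, fun _ => Iff.rfl⟩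
  have hUc : ∀ u, U u → ∀ y ∈ M, U (y * u * y⁻¹) := by
    simp only [hU]
    rintro _ ⟨z, hz, d, hd, hd1, rfl⟩ y hy
    exact ⟨y * z, M.mul_mem hy hz, d, hd, hd1, by group⟩
  have hUT : ∀ u, U u → ∀ y, U (y * u * y⁻¹) → y ∈ M := by
    simp only [hU]
    rintro _ ⟨z, hz, d, hd, hd1, rfl⟩ y ⟨z', hz', d', hd', -, e⟩
    have := hHM (hD d hd d' hd' hd1 (z'⁻¹ * y * z) (by
      rw [← mul_left_inj z'⁻¹, ← mul_right_inj z', ← mul_assoc z' (d' : G), e]; group))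
    simpa [mul_assoc] using M.mul_mem (M.mul_mem hz' this) (M.inv_mem hz)
  have hUC : ∀ u, U u → ∀ y, Commute y u → y ∈ M := fun u h y hy =>
    hUT u h y (by rwa [hy.eq, mul_inv_cancel_right])
  obtain ⟨A, hA⟩ : ∃ A : Set G, ∀ g, g ∈ A ↔ g ∈ M ∧ U (g ^ m) :=
    ⟨{g | g ∈ M ∧ U (g ^ m)}, fun _ => Iff.rfl⟩
  have hS1 : ∀ t u : G, u ^ p ^ N = 1 → Commute u (t * x * t⁻¹) →
      ∃ t' : G, ∃ d ∈ D, t' * x * t'⁻¹ = t * x * t⁻¹ ∧ t' * d * t'⁻¹ = u := by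
    intro t u h1 h2
    have h3 : t⁻¹ * u * t ∈ Subgroup.centralizer ({x} : Set G) := by
      rw [Subgroup.mem_centralizer_singleton_iff, ← mul_left_inj t⁻¹, ← mul_right_inj t]
      simpa [mul_assoc] using h2.eq
    obtain ⟨y, hy⟩ := conj_mem_sylow hp D (u := ⟨_, h3⟩) (j := N) (Subtype.ext (by
      have := congrArg (fun z => t⁻¹ * z * t⁻¹⁻¹) h1
      simp only [← conj_pow] at this
      simpa using this))
    refine ⟨t * (y : G)⁻¹, _, hy, ?_, by simp [mul_assoc]⟩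
    have := Subgroup.mem_centralizer_singleton_iff.1 y.2
    rw [mul_assoc t, (Commute.inv_left this).eq]
    group
  obtain ⟨w, hw, hw'⟩ := class_sum V hV x
  have hw𝔓 : w ∉ 𝔓 := fun h => hx w h hw'
  set K := univ.filter (IsConj x) with hK
  have hKc : ∀ g h, g * h * g⁻¹ ∈ K ↔ h ∈ K := fun g h => by
    simp only [hK, mem_filter, mem_univ, true_and]
    exact ⟨fun e => e.trans (isConj_iff.2 ⟨g, rfl⟩).symm, fun e => e.trans (isConj_iff.2 ⟨g, rfl⟩)⟩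
  have hg0A : ∃ g ∈ A, φ0 (V.character g) ≠ V.character g := by
    obtain ⟨h, hh, hc⟩ : ∃ h ∈ K, Commute (g0 ^ m) h := by
      by_contra hcon
      push Not at hcon
      have h1 := green V hp 𝔓 h𝔓 hp𝔓 g0 K (hKc g0)
        (fun h hh => free_of hp (hu g0) (hcon h hh)) hw𝔓 (one_mem _) (Commute.one_right _)
        (by rw [hw]; simp)
      rw [hw, mul_one, mul_smul_comm, mul_one] at h1
      have h2 : (w : ℂ) * V.character g0 = 0 := (map_smul (LinearMap.trace ℂ V) (w : ℂ) _).symm.trans h1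
      have h3 : (w : ℂ) ≠ 0 := fun h => hw𝔓 ((Subtype.ext h : w = 0) ▸ 𝔓.zero_mem)
      exact hne (by simp [(mul_eq_zero.1 h2).resolve_left h3])
    obtain ⟨t, rfl⟩ := isConj_iff.1 (mem_filter.1 hh).2
    obtain ⟨t', d, hd, -, e⟩ := hS1 t _ (hu g0) hc
    have e1 : (t'⁻¹ * g0 * t'⁻¹⁻¹) ^ m = d := by rw [conj_pow, ← e]; group
    have hUd : U d := (hU _).2 ⟨1, M.one_mem, d, hd, fun h => hg1 (by
      rw [← e, conj_pow, ← Subgroup.coe_pow, h]; simp), by simp⟩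
    exact ⟨t'⁻¹ * g0 * t'⁻¹⁻¹, (hA _).2 ⟨hUC _ hUd _ (e1 ▸ Commute.self_pow _ m), e1 ▸ hUd⟩,
      by rwa [V.char_conj]⟩
  obtain ⟨L1, hL1⟩ : ∃ L1 : Finset G, ∀ h, h ∈ L1 ↔ h ∈ K ∧ ∃ u, U u ∧ Commute h u :=
    ⟨K.filter _, fun _ => mem_filter⟩
  have hL1c : ∀ g ∈ M, ∀ h, g * h * g⁻¹ ∈ L1 ↔ h ∈ L1 := by
    have : ∀ g ∈ M, ∀ h ∈ L1, g * h * g⁻¹ ∈ L1 := by
      simp only [hL1, hKc]
      rintro g hg h ⟨h1, u, h2, h3⟩
      exact ⟨h1, _, hUc u h2 g hg, h3.map (MulAut.conj g)⟩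
    exact fun g hg h => ⟨fun e => by simpa [mul_assoc] using this _ (M.inv_mem hg) _ e, this g hg h⟩
  have hL1M : ∀ h ∈ L1, h ∈ M := fun h hh => by
    obtain ⟨-, u, h2, h3⟩ := (hL1 h).1 hh
    exact hUC u h2 h h3
  obtain ⟨ω, hω0⟩ := exists_omega (G := M) (univ.filter fun h => (h : G) ∈ L1) fun h y => by
    simpa using hL1c y y.2 h
  have hsum : ∑ h ∈ univ.filter (fun h : M => (h : G) ∈ L1), V.ρ h = ∑ h ∈ L1, V.ρ h :=
    Finset.sum_bij (fun h _ => (h : G)) (fun h hh => (mem_filter.1 hh).2)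
      (fun _ _ _ _ e => Subtype.ext e)
      (fun h hh => ⟨⟨h, hL1M h hh⟩, mem_filter.2 ⟨mem_univ _, hh⟩, rfl⟩) fun _ _ => rfl
  have hω := fun q => hω0 q V (V.ρ.comp M.subtype)
  simp only [MonoidHom.comp_apply, Subgroup.coe_subtype, hsum] at hω
  have hχM := hχ.isChar.comp M.subtype
  have pv := part_vanish V hp 𝔓 h𝔓 hp𝔓 M L1 ω hω
  obtain ⟨θ, hθ⟩ : ∃ θ : M → ℂ, θ = ∑ η ∈ (irrs M).filter (fun η => ω η ∉ 𝔓),
    ip (V.character ∘ M.subtype) η • η := ⟨_, rfl⟩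
  have hi : ∀ g : M, (g : G) ∉ A → ((g : G) ^ m) ^ p ^ a ≠ 1 → θ g = 0 := by
    intro g hgA hga
    have := pv (fun η => ω η ∉ 𝔓) X (fun η h => by simpa using h)
      (fun η η' h h' e => h (by simpa using 𝔓.add_mem e (not_not.1 h'))) L1 (aeval_X _) g
      (hL1c g g.2) (hL1c g g.2) fun h hh => free_of hp (hu g) fun hc => hgA ?_
    · simpa [hθ, Finset.sum_apply] using this
    obtain ⟨h1, u, h2, h3⟩ := (hL1 h).1 hh
    obtain ⟨t, rfl⟩ := isConj_iff.1 (mem_filter.1 h1).2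
    obtain ⟨y, hy, d, hd, hd1, e⟩ := (hU u).1 h2
    obtain ⟨j, hj⟩ := D.2 ⟨d, hd⟩
    have hup : u ^ p ^ N = 1 := by
      have h4 : (d : G) ^ p ^ j = 1 := congrArg (fun z : D.1 => ((z : _) : G)) hj
      have h5 : orderOf (d : G) ∣ p ^ N :=
        (Nat.Coprime.coprime_dvd_left (orderOf_dvd_of_pow_eq_one h4) (Nat.Coprime.pow_left j
          ((Nat.Prime.coprime_iff_not_dvd hp).2 hm))).dvd_of_dvd_mul_left
          (hn ▸ orderOf_dvd_natCard _)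
      rw [← e, conj_pow, orderOf_dvd_iff_pow_eq_one.1 h5]; simp
    obtain ⟨t', d', hd', e1, e2⟩ := hS1 t u hup h3.symm
    have ht' : t' ∈ M := by
      have := hHM (hD d hd d' hd' hd1 (t'⁻¹ * y) (by
        rw [← mul_left_inj t'⁻¹, ← mul_right_inj t', ← mul_assoc t' (d' : G), e2, ← e]; group))
      simpa using M.inv_mem (M.mul_mem this (M.inv_mem hy))
    have hDM : D.1 ≤ M.subgroupOf (Subgroup.centralizer ({x} : Set G)) := fun c hc =>
      hHM (hD d hd _ (D.1.mul_mem (D.1.mul_mem hc hd) (D.1.inv_mem hc)) hd1 c rfl)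
    rw [← e1] at hc
    have h3 : t'⁻¹ * g ^ m * t' ∈ Subgroup.centralizer ({x} : Set G) := by
      rw [Subgroup.mem_centralizer_singleton_iff, ← mul_left_inj t'⁻¹, ← mul_right_inj t']
      simpa [mul_assoc] using hc.eq
    obtain ⟨c, hc'⟩ := conj_mem_sylow hp (D.subtype hDM) (j := N)
      (u := ⟨⟨_, h3⟩, M.mul_mem (M.mul_mem (M.inv_mem ht') (M.pow_mem g.2 m)) ht'⟩)
      (Subtype.ext (Subtype.ext (by
        have := congrArg (fun z => t'⁻¹ * z * t'⁻¹⁻¹) (hu g)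
        simp only [← conj_pow (i := p ^ N)] at this
        simpa using this)))
    have e3 : t' * ((c : _) : G)⁻¹ * (((c : _) : G) * (t'⁻¹ * g ^ m * t') * ((c : _) : G)⁻¹) *
        (t' * ((c : _) : G)⁻¹)⁻¹ = g ^ m := by group
    refine (hA _).2 ⟨g.2, (hU _).2 ⟨t' * ((c : _) : G)⁻¹, M.mul_mem ht' (M.inv_mem c.2),
      c.1 * ⟨_, h3⟩ * c.1⁻¹, hc', fun h => hga ?_, e3⟩⟩
    have h4 : (((c : _) : G) * (t'⁻¹ * g ^ m * t') * ((c : _) : G)⁻¹) ^ p ^ a = 1 :=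
      congrArg Subtype.val h
    rw [← e3, conj_pow, h4]; simp
  have hii : ∀ g : M, (g : G) ∈ A → θ g = V.character g := by
    intro g hgA
    have hsub : L1 ⊆ K := fun h hh => ((hL1 h).1 hh).1
    have := pv (fun η => ¬ ω η ∉ 𝔓) (C w - X)
      (fun η h e => hw𝔓 (by simpa using 𝔓.add_mem e (not_not.1 h)))
      (fun η η' h h' e => not_not.1 h' (by simpa using 𝔓.sub_mem (not_not.1 h) e)) (K \ L1)
      (by rw [map_sub, aeval_C, aeval_X, Finset.sum_sdiff_eq_sub hsub, hw,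
        Algebra.algebraMap_eq_smul_one]) g (hL1c g g.2)
      (fun h => by simp only [mem_sdiff, hKc, hL1c g g.2])
      fun h hh => free_of hp (hu g) fun hc => (mem_sdiff.1 hh).2
        ((hL1 h).2 ⟨(mem_sdiff.1 hh).1, _, ((hA _).1 hgA).2, hc.symm⟩)
    have h2 := congrFun (expand hχM.isClass) g
    rw [← Finset.sum_filter_add_sum_filter_not _ (fun η => ω η ∉ 𝔓), ← hθ] at h2
    simp only [Pi.add_apply, Finset.sum_apply, Pi.smul_apply, smul_eq_mul] at h2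
    rw [this, add_zero] at h2
    exact h2.symm
  have hnat : ∀ η ∈ irrs M, ∃ n : ℕ, ip (V.character ∘ M.subtype) η = n := fun η hη =>
    hχM.ip_nat (mem_irrs.1 hη).isChar
  choose! n hn' using hnat
  have hθ' : θ = ∑ η ∈ (irrs M).filter (fun η => ω η ∉ 𝔓), (n η : ℂ) • η := by
    rw [hθ]
    exact Finset.sum_congr rfl fun η hη => by rw [hn' η (mem_filter.1 hη).1]
  have hθφ : φ0 ∘ θ = ∑ η ∈ (irrs M).filter (fun η => ω η ∉ 𝔓), (n η : ℂ) • (φ0 ∘ η) := by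
    ext g
    simp [hθ', Finset.sum_apply]
  refine concl_of_ti hχ hprim M hM A (fun g hg => ((hA g).1 hg).1) ?_ ?_ φ0 hg0A ?_
  · intro g hg y hy
    rw [hA] at hg ⊢
    exact ⟨M.mul_mem (M.mul_mem hy hg.1) (M.inv_mem hy), by
      rw [conj_pow]; exact hUc _ hg.2 y hy⟩
  · intro g hg y hy
    rw [hA] at hg hy
    exact hUT _ hg.2 y (by rw [← conj_pow]; exact hy.2)
  · intro η hη
    have hF : (fun g : M => if (g : G) ∈ A then V.character g - φ0 (V.character g) else 0) =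
        θ - φ0 ∘ θ := by
      ext g
      simp only [Pi.sub_apply, Function.comp_apply]
      split_ifs with h
      · rw [hii g h]
      by_cases h' : ((g : G) ^ m) ^ p ^ a = 1
      · have e : g ^ k0 = g := Subtype.ext (hvan _ h')
        have e2 := congrFun hθφ g
        rw [Function.comp_apply] at e2
        rw [e2, hθ', ← Pi.sub_apply, ← Finset.sum_sub_distrib, Finset.sum_apply, eq_comm]
        refine Finset.sum_eq_zero fun η' hη' => ?_
        have := (mem_irrs.1 (mem_filter.1 hη').1).isChar.map_pow hn0 hζ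
          (g := g) (Subtype.ext (by simp [pow_card_eq_one'])) hφ
        simp [this, e]
      · simp [hi g h h']
    rw [hF, ip_sub, hθφ, hθ', ip_sum, ip_sum]
    refine ⟨∑ η' ∈ (irrs M).filter (fun η => ω η ∉ 𝔓), n η' * (if η' = η then 1 else 0) -
      ∑ η' ∈ (irrs M).filter (fun η => ω η ∉ 𝔓), n η' * (if φ0 ∘ η' = η then 1 else 0), ?_⟩
    push_cast
    congr 1 <;> refine Finset.sum_congr rfl fun η' hη' => ?_
    · rw [ip_smul, (mem_irrs.1 (mem_filter.1 hη').1).ip_eq hη]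
    · rw [ip_smul, ((mem_irrs.1 (mem_filter.1 hη').1).twist φ0).ip_eq hη]

end Pool.Agent.P.MP_b1ffdf_al
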