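import Pool.Agent.P.MP_b1ffdf_al.Gal

set_option autoImplicit false

open CategoryTheory Classical Finset

namespace Pool.Agent.P.MP_b1ffdf_al

theorem geom_root {n : ℕ} {δ : ℂ} (h : δ ^ n = 1) :
    ∑ i ∈ range n, δ ^ i = if δ = 1 then (n : ℂ) else 0 := by
  split_ifs with h1
  · simp [h1]
  · rw [geom_sum_eq h1, h]; simp

theorem trace_idem {V : Type} [AddCommGroup V] [Module ℂ V] [FiniteDimensional ℂ V]
    (E : Module.End ℂ V) (hE : E * E = E) : ∃ m : ℕ, LinearMap.trace ℂ V E = m :=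
  ⟨_, (LinearMap.IsIdempotentElem.isProj_range E hE).trace⟩

theorem eigen {V : Type} [AddCommGroup V] [Module ℂ V] [FiniteDimensional ℂ V]
    {n : ℕ} {ζ : ℂ} (hn : 0 < n) (hζ : IsPrimitiveRoot ζ n) (T E : Module.End ℂ V)
    (hT : T ^ n = 1) (hE : E * E = E) (hc : Commute T E) :
    ∃ m : ℕ → ℕ, ∀ j, LinearMap.trace ℂ V (T ^ j * E) = ∑ i ∈ range n, (m i : ℂ) * ζ ^ (i * j) := by
  have hz : ζ ≠ 0 := hζ.ne_zero hn.ne'
  have hn' : (n : ℂ) ≠ 0 := by exact_mod_cast hn.ne'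
  let P : ℕ → Module.End ℂ V := fun i => (n : ℂ)⁻¹ • ∑ l ∈ range n, (ζ⁻¹ ^ i) ^ l • T ^ l
  have h1 : ∀ i, T * P i = ζ ^ i • P i := by
    intro i
    have hs : ∑ l ∈ range n, (ζ⁻¹ ^ i) ^ (l + 1) • T ^ (l + 1) =
        ∑ l ∈ range n, (ζ⁻¹ ^ i) ^ l • T ^ l := by
      have a1 := Finset.sum_range_succ (fun l => (ζ⁻¹ ^ i) ^ l • T ^ l) n
      have a2 := Finset.sum_range_succ' (fun l => (ζ⁻¹ ^ i) ^ l • T ^ l) n
      have a3 : (ζ⁻¹ ^ i) ^ n • T ^ n = (ζ⁻¹ ^ i) ^ 0 • T ^ 0 := by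
        rw [hT, ← pow_mul, mul_comm, pow_mul, inv_pow, hζ.pow_eq_one]; simp
      rw [a2, a3] at a1
      exact add_right_cancel a1
    simp only [P]
    conv_rhs => rw [← hs]
    rw [smul_comm (ζ ^ i), mul_smul_comm, Finset.mul_sum, Finset.smul_sum (r := ζ ^ i)]
    congr 1
    refine Finset.sum_congr rfl fun l _ => ?_
    rw [mul_smul_comm, ← pow_succ', smul_smul]
    congr 1
    rw [pow_succ', ← mul_assoc, ← mul_pow, mul_inv_cancel₀ hz]; simp
  have h2 : ∀ i j, T ^ j * P i = ζ ^ (i * j) • P i := by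
    intro i j
    induction j with
    | zero => simp
    | succ j ih => rw [pow_succ', mul_assoc, ih, mul_smul_comm, h1, smul_smul, mul_add, pow_add, mul_one]
  have h3 : ∀ i, P i * P i = P i := by
    intro i
    conv_lhs => lhs; simp only [P]
    rw [smul_mul_assoc, Finset.sum_mul]
    have : ∀ l ∈ range n, ((ζ⁻¹ ^ i) ^ l • T ^ l) * P i = P i := by
      intro l _
      rw [smul_mul_assoc, h2, smul_smul, ← pow_mul, ← mul_pow, inv_mul_cancel₀ hz]; simp
    rw [Finset.sum_congr rfl this, Finset.sum_const, card_range, ← Nat.cast_smul_eq_nsmul ℂ,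
      smul_smul, inv_mul_cancel₀ hn', one_smul]
  have h4 : ∑ i ∈ range n, P i = 1 := by
    simp only [P]
    rw [← Finset.smul_sum, Finset.sum_comm]
    have : ∀ l ∈ range n, ∑ i ∈ range n, (ζ⁻¹ ^ i) ^ l • T ^ l =
        if l = 0 then (n : ℂ) • (1 : Module.End ℂ V) else 0 := by
      intro l hl
      rw [← Finset.sum_smul]
      simp_rw [← pow_mul, mul_comm _ l, pow_mul]
      rw [geom_root (by rw [← pow_mul, mul_comm, pow_mul, inv_pow, hζ.pow_eq_one]; simp)]
      by_cases h0 : l = 0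
      · simp [h0]
      · have : ζ⁻¹ ^ l ≠ 1 := hζ.inv.pow_ne_one_of_pos_of_lt h0 (mem_range.1 hl)
        simp only [this, h0, if_false, zero_smul]
    rw [Finset.sum_congr rfl this, Finset.sum_ite_eq' (range n) 0]
    simp [hn, smul_smul, hn']
  have h5 : ∀ i, Commute (P i) E := by
    intro i
    refine Commute.smul_left (Commute.sum_left _ _ _ fun l _ => ?_) _
    exact (hc.pow_left l).smul_left _
  have h6 : ∀ i, ∃ m : ℕ, LinearMap.trace ℂ V (P i * E) = m := by
    intro i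
    apply trace_idem
    rw [mul_assoc, ← mul_assoc E, ← (h5 i).eq, mul_assoc, hE, ← mul_assoc, h3]
  choose m hm using h6
  refine ⟨m, fun j => ?_⟩
  have : T ^ j * E = ∑ i ∈ range n, ζ ^ (i * j) • (P i * E) := by
    conv_lhs => rw [← mul_one (T ^ j), ← h4, Finset.mul_sum, Finset.sum_mul]
    refine Finset.sum_congr rfl fun i _ => ?_
    rw [h2, smul_mul_assoc]
  rw [this, map_sum]
  refine Finset.sum_congr rfl fun i _ => ?_
  rw [map_smul, hm, smul_eq_mul, mul_comm]

variable {G : Type} [Group G] [Fintype G]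

def IsChar (f : G → ℂ) : Prop := ∃ V : FDRep ℂ G, V.character = f

def IsIrr (f : G → ℂ) : Prop := ∃ V : FDRep ℂ G, Simple V ∧ V.character = f

noncomputable def ip (f h : G → ℂ) : ℂ := (Nat.card G : ℂ)⁻¹ * ∑ g, f g * h g⁻¹

def IsClass (f : G → ℂ) : Prop := ∀ g y, f (y * g * y⁻¹) = f g

theorem card_ne : (Nat.card G : ℂ) ≠ 0 := by exact_mod_cast Nat.card_pos.ne'

theorem isChar_of_rep {V : Type} [AddCommGroup V] [Module ℂ V] [FiniteDimensional ℂ V]
    (ρ : Representation ℂ G V) : IsChar ρ.character := ⟨FDRep.of ρ, rfl⟩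

theorem IsIrr.isChar {f : G → ℂ} (h : IsIrr f) : IsChar f := by
  obtain ⟨V, -, h⟩ := h; exact ⟨V, h⟩

theorem IsChar.isClass {f : G → ℂ} (h : IsChar f) : IsClass f := by
  obtain ⟨V, rfl⟩ := h; exact fun g y => V.char_conj g y

theorem ip_comm (f h : G → ℂ) : ip f h = ip h f := by
  unfold ip
  rw [← Equiv.sum_comp (Equiv.inv G)]
  simp [mul_comm]

theorem ip_add (f f' h : G → ℂ) : ip (f + f') h = ip f h + ip f' h := by
  simp [ip, add_mul, Finset.sum_add_distrib, mul_add]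

theorem ip_sub (f f' h : G → ℂ) : ip (f - f') h = ip f h - ip f' h := by
  simp [ip, sub_mul, Finset.sum_sub_distrib, mul_sub]

theorem ip_smul (c : ℂ) (f h : G → ℂ) : ip (c • f) h = c * ip f h := by
  simp only [ip, Pi.smul_apply, smul_eq_mul, mul_assoc, ← Finset.mul_sum]; ring

theorem ip_zero (h : G → ℂ) : ip 0 h = 0 := by simp [ip]

theorem ip_sum {ι : Type*} (s : Finset ι) (f : ι → G → ℂ) (h : G → ℂ) :
    ip (∑ i ∈ s, f i) h = ∑ i ∈ s, ip (f i) h := by
  induction s using Finset.induction_on with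
  | empty => simp [ip_zero]
  | insert a s ha ih => rw [Finset.sum_insert ha, Finset.sum_insert ha, ip_add, ih]

theorem IsChar.ip_nat {f h : G → ℂ} (hf : IsChar f) (hh : IsChar h) : ∃ m : ℕ, ip f h = m := by
  obtain ⟨V, rfl⟩ := hf
  obtain ⟨W, rfl⟩ := hh
  letI := invertibleOfNonzero (card_ne (G := G))
  exact ⟨_, FDRep.scalar_product_char_eq_finrank_equivariant W V⟩

theorem isIrr_iff {f : G → ℂ} : IsIrr f ↔ IsChar f ∧ ip f f = 1 := by
  haveI : NeZero (Nat.card G : ℂ) := ⟨card_ne⟩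
  constructor
  · rintro ⟨V, hV, rfl⟩
    refine ⟨⟨V, rfl⟩, ?_⟩
    rw [ip, (FDRep.simple_iff_char_is_norm_one V).1 hV, inv_mul_cancel₀ card_ne]
  · rintro ⟨⟨V, rfl⟩, h⟩
    refine ⟨V, (FDRep.simple_iff_char_is_norm_one V).2 ?_, rfl⟩
    rw [ip, inv_mul_eq_one₀ card_ne] at h
    exact h.symm

theorem IsIrr.ip_eq {f h : G → ℂ} (hf : IsIrr f) (hh : IsIrr h) :
    ip f h = if f = h then 1 else 0 := by
  split_ifs with e
  · subst e; exact (isIrr_iff.1 hf).2
  · obtain ⟨V, hV, rfl⟩ := hf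
    obtain ⟨W, hW, rfl⟩ := hh
    letI := invertibleOfNonzero (card_ne (G := G))
    rw [ip, FDRep.char_orthonormal, if_neg]
    rintro ⟨i⟩
    exact e (FDRep.char_iso i)

theorem IsChar.twist {f : G → ℂ} (hf : IsChar f) (φ : ℂ →+* ℂ) : IsChar (φ ∘ f) := by
  obtain ⟨V, rfl⟩ := hf
  let b := Module.finBasis ℂ V
  let ρ : Representation ℂ G (Fin (Module.finrank ℂ V) → ℂ) :=
    (Matrix.toLinAlgEquiv' (R := ℂ)).toAlgHom.toRingHom.toMonoidHom.comp
      ((RingHom.mapMatrix φ).toMonoidHom.comp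
        ((LinearMap.toMatrixAlgEquiv b).toAlgHom.toRingHom.toMonoidHom.comp V.ρ))
  have : ρ.character = φ ∘ V.character := by
    ext g
    change LinearMap.trace ℂ _ (Matrix.toLin' ((LinearMap.toMatrix b b (V.ρ g)).map φ)) = _
    rw [Matrix.trace_toLin'_eq, Function.comp_apply, FDRep.character,
      LinearMap.trace_eq_matrix_trace ℂ b]
    simp [Matrix.trace]
  exact this ▸ isChar_of_rep ρ

theorem ip_map (φ : ℂ →+* ℂ) (f h : G → ℂ) : ip (φ ∘ f) (φ ∘ h) = φ (ip f h) := by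
  simp [ip]

theorem IsIrr.twist {f : G → ℂ} (hf : IsIrr f) (φ : ℂ →+* ℂ) : IsIrr (φ ∘ f) := by
  rw [isIrr_iff] at hf ⊢
  exact ⟨hf.1.twist φ, by rw [ip_map, hf.2, map_one]⟩

theorem IsChar.comp {H : Type} [Group H] [Fintype H] {f : G → ℂ} (hf : IsChar f) (i : H →* G) :
    IsChar (f ∘ i) := by
  obtain ⟨V, rfl⟩ := hf
  exact isChar_of_rep (V.ρ.comp i)

theorem IsChar.mul {f h : G → ℂ} (hf : IsChar f) (hh : IsChar h) : IsChar (f * h) := by
  obtain ⟨V, rfl⟩ := hf
  obtain ⟨W, rfl⟩ := hh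
  exact ⟨_, FDRep.char_tensor V W⟩

theorem IsChar.dual {f : G → ℂ} (hf : IsChar f) : IsChar (fun g => f g⁻¹) := by
  obtain ⟨V, rfl⟩ := hf
  exact ⟨_, funext fun g => FDRep.char_dual V g⟩

theorem IsChar.eigen {f : G → ℂ} (hf : IsChar f) {n : ℕ} {ζ : ℂ} (hn : 0 < n)
    (hζ : IsPrimitiveRoot ζ n) {g : G} (hg : g ^ n = 1) :
    ∃ m : ℕ → ℕ, ∀ j, f (g ^ j) = ∑ i ∈ range n, (m i : ℂ) * ζ ^ (i * j) := by
  obtain ⟨V, rfl⟩ := hf
  obtain ⟨m, hm⟩ := Pool.Agent.P.MP_b1ffdf_al.eigen hn hζ (V.ρ g) 1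
    (by rw [← map_pow, hg, map_one]) (mul_one _) (Commute.one_right _)
  refine ⟨m, fun j => ?_⟩
  rw [← hm, mul_one, ← map_pow]; rfl

theorem IsChar.map_pow {f : G → ℂ} (hf : IsChar f) {n : ℕ} {ζ : ℂ} (hn : 0 < n)
    (hζ : IsPrimitiveRoot ζ n) {g : G} (hg : g ^ n = 1) {φ : ℂ →+* ℂ} {k : ℕ}
    (hφ : φ ζ = ζ ^ k) : φ (f g) = f (g ^ k) := by
  obtain ⟨m, hm⟩ := hf.eigen hn hζ hg
  have h1 := hm 1
  rw [pow_one] at h1
  rw [h1, hm k, map_sum]
  refine Finset.sum_congr rfl fun i _ => ?_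
  rw [map_mul, map_natCast, _root_.map_pow, hφ, ← pow_mul, mul_one, mul_comm k]

theorem IsChar.mem_adjoin {f : G → ℂ} (hf : IsChar f) {n : ℕ} {ζ : ℂ} (hn : 0 < n)
    (hζ : IsPrimitiveRoot ζ n) {g : G} (hg : g ^ n = 1) : f g ∈ Algebra.adjoin ℤ {ζ} := by
  obtain ⟨m, hm⟩ := hf.eigen hn hζ hg
  have h1 := hm 1
  rw [pow_one] at h1
  rw [h1]
  exact Subalgebra.sum_mem _ fun i _ => Subalgebra.mul_mem _ (natCast_mem _ _)
    (Subalgebra.pow_mem _ (Algebra.self_mem_adjoin_singleton ℤ ζ) _)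

theorem IsChar.mem_field {f : G → ℂ} (hf : IsChar f) {n : ℕ} {ζ : ℂ} (hn : 0 < n)
    (hζ : IsPrimitiveRoot ζ n) {g : G} (hg : g ^ n = 1) :
    f g ∈ IntermediateField.adjoin ℚ {ζ} := by
  obtain ⟨m, hm⟩ := hf.eigen hn hζ hg
  have h1 := hm 1
  rw [pow_one] at h1
  rw [h1]
  exact sum_mem fun i _ => mul_mem (natCast_mem _ _)
    (pow_mem (IntermediateField.mem_adjoin_simple_self ℚ ζ) _)

theorem IsChar.isIntegral {f : G → ℂ} (hf : IsChar f) (g : G) : IsIntegral ℤ (f g) := by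
  have hn : 0 < Nat.card G := Nat.card_pos
  have hζ := Complex.isPrimitiveRoot_exp _ hn.ne'
  have := hf.mem_adjoin hn hζ (pow_card_eq_one' (x := g))
  exact IsIntegral.of_mem_of_fg _ (hζ.isIntegral hn).fg_adjoin_singleton _ this

theorem IsChar.conj {f : G → ℂ} (hf : IsChar f) (g : G) : f g⁻¹ = starRingEnd ℂ (f g) := by
  have hn : 0 < Nat.card G := Nat.card_pos
  have hζ := Complex.isPrimitiveRoot_exp _ hn.ne'
  set ζ := Complex.exp (2 * Real.pi * Complex.I / (Nat.card G))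
  have h1 : starRingEnd ℂ ζ = ζ ^ (Nat.card G - 1) := by
    have h2 : ‖ζ‖ = 1 := hζ.norm'_eq_one hn.ne'
    have h3 : ζ ≠ 0 := hζ.ne_zero hn.ne'
    apply mul_left_cancel₀ h3
    rw [Complex.mul_conj, ← pow_succ', Nat.sub_add_cancel hn, hζ.pow_eq_one,
      Complex.normSq_eq_norm_sq, h2]
    simp
  rw [hf.map_pow hn hζ (pow_card_eq_one' (x := g)) h1]
  congr 1
  rw [inv_eq_iff_mul_eq_one, ← pow_succ', Nat.sub_add_cancel hn, pow_card_eq_one']

theorem IsChar.twist_comm {f : G → ℂ} (hf : IsChar f) (φ ψ : ℂ →+* ℂ) (g : G) :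
    φ (ψ (f g)) = ψ (φ (f g)) := by
  have hn : 0 < Nat.card G := Nat.card_pos
  have hζ := Complex.isPrimitiveRoot_exp _ hn.ne'
  obtain ⟨k, -, hk⟩ := exists_pow_of_hom hn hζ φ
  obtain ⟨l, -, hl⟩ := exists_pow_of_hom hn hζ ψ
  rw [hf.map_pow hn hζ pow_card_eq_one' hk, hf.map_pow hn hζ pow_card_eq_one' hl,
    hf.map_pow hn hζ pow_card_eq_one' hk, hf.map_pow hn hζ pow_card_eq_one' hl,
    ← pow_mul, ← pow_mul, mul_comm]

theorem rep_mem_closure (d : ℕ) : ∀ (V : Type) [AddCommGroup V] [Module ℂ V]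
    [FiniteDimensional ℂ V] (ρ : Representation ℂ G V), Module.finrank ℂ V = d →
    ρ.character ∈ AddSubmonoid.closure {f : G → ℂ | IsIrr f} := by
  induction d using Nat.strong_induction_on with
  | _ d ih =>
  intro V _ _ _ ρ hd
  letI := invertibleOfNonzero (card_ne (G := G))
  haveI : NeZero (Nat.card G : ℂ) := ⟨card_ne⟩
  by_cases hirr : ρ.IsIrreducible
  · refine AddSubmonoid.subset_closure (isIrr_iff.2 ⟨isChar_of_rep ρ, ?_⟩)
    rw [ip, Representation.char_orthonormal, if_pos ⟨Representation.Equiv.refl ρ⟩]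
  by_cases h0 : (⊥ : Subrepresentation ρ) = ⊤
  · have : ρ.character = 0 := by
      ext g
      have h1 : (⊥ : Submodule ℂ V) = ⊤ := congrArg Subrepresentation.toSubmodule h0
      have : Subsingleton V := by
        rwa [subsingleton_iff_bot_eq_top, Submodule.subsingleton_iff] at h1
      simp [Representation.character, Subsingleton.elim (ρ g) 0]
    rw [this]; exact zero_mem _
  obtain ⟨W, hW0, hW1⟩ : ∃ W : Subrepresentation ρ, W ≠ ⊥ ∧ W ≠ ⊤ := by
    by_contra hcon
    push Not at hcon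
    haveI : Nontrivial (Subrepresentation ρ) := ⟨⟨_, _, h0⟩⟩
    exact hirr ⟨fun W => by by_cases h : W = ⊥; exact Or.inl h; exact Or.inr (hcon W h)⟩
  obtain ⟨W', hWW⟩ := exists_isCompl W
  have hc : IsCompl W.toSubmodule W'.toSubmodule := by
    constructor
    · rw [disjoint_iff, ← Subrepresentation.toSubmodule_inf, hWW.inf_eq_bot]; rfl
    · rw [codisjoint_iff, ← Subrepresentation.toSubmodule_sup, hWW.sup_eq_top]; rfl
  have hsum : ρ.character = W.toRepresentation.character + W'.toRepresentation.character := by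
    ext g
    have : ρ g = (Submodule.prodEquivOfIsCompl _ _ hc).conj
        ((W.toRepresentation g).prodMap (W'.toRepresentation g)) := by
      rw [LinearEquiv.conj_apply, LinearEquiv.eq_comp_toLinearMap_symm]
      ext x <;> simp [Subrepresentation.toRepresentation]
    rw [Pi.add_apply, Representation.character, this, LinearMap.trace_conj',
      LinearMap.trace_prodMap']
    rfl
  have hr := Submodule.finrank_add_eq_of_isCompl hc
  have p1 : 0 < Module.finrank ℂ W.toSubmodule := by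
    rw [pos_iff_ne_zero, Ne, Submodule.finrank_eq_zero]
    exact fun h => hW0 (Subrepresentation.toSubmodule_injective h)
  have p2 : 0 < Module.finrank ℂ W'.toSubmodule := by
    rw [pos_iff_ne_zero, Ne, Submodule.finrank_eq_zero]
    intro h
    have : W' = ⊥ := Subrepresentation.toSubmodule_injective h
    rw [this] at hWW
    exact hW1 (eq_top_of_isCompl_bot hWW)
  rw [hsum]
  exact add_mem (ih _ (by omega) _ _ rfl) (ih _ (by omega) _ _ rfl)

theorem IsChar.mem_closure {f : G → ℂ} (hf : IsChar f) :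
    f ∈ AddSubmonoid.closure {f : G → ℂ | IsIrr f} := by
  obtain ⟨V, rfl⟩ := hf
  exact rep_mem_closure _ V V.ρ rfl

theorem schur (V : FDRep ℂ G) (hV : Simple V) (Z : Module.End ℂ V)
    (hZ : ∀ g, Z * V.ρ g = V.ρ g * Z) : ∃ c : ℂ, Z = c • 1 := by
  letI := invertibleOfNonzero (card_ne (G := G))
  have h1 : ip V.character V.character = 1 := (isIrr_iff.1 ⟨V, hV, rfl⟩).2
  have h2 := Representation.card_inv_mul_sum_char_mul_char_eq_finrank V.ρ V.ρ
  have h3 : Module.finrank ℂ (Representation.IntertwiningMap V.ρ V.ρ) = 1 := by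
    have : ((Module.finrank ℂ (Representation.IntertwiningMap V.ρ V.ρ) : ℕ) : ℂ) = 1 := by
      rw [← h2]; exact h1
    exact_mod_cast this
  have h4 : (Representation.IntertwiningMap.id V.ρ) ≠ 0 := by
    intro h
    have h5 : ∀ g, V.character g = 0 := by
      intro g
      have : V.ρ g = 0 := by
        ext v
        exact congrArg (fun e : Representation.IntertwiningMap V.ρ V.ρ => e (V.ρ g v)) h
      simp [FDRep.character, this]
    simp [ip, h5] at h1
  obtain ⟨c, hc⟩ := (finrank_eq_one_iff_of_nonzero' _ h4).1 h3 ⟨Z, fun g => hZ g⟩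
  refine ⟨c, ?_⟩
  ext v
  exact (congrArg (fun e : Representation.IntertwiningMap V.ρ V.ρ => e v) hc).symm

theorem IsIrr.one_ne_zero {f : G → ℂ} (hf : IsIrr f) : ∃ d : ℕ, 0 < d ∧ f 1 = d := by
  have h1 := (isIrr_iff.1 hf).2
  obtain ⟨V, hV, rfl⟩ := hf
  refine ⟨_, Nat.pos_of_ne_zero fun h => ?_, V.char_one⟩
  have : Subsingleton V := Module.finrank_zero_iff.1 h
  have h5 : ∀ g, V.character g = 0 := fun g => by
    simp [FDRep.character, Subsingleton.elim (V.ρ g) 0]
  simp [ip, h5] at h1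

theorem class_comm (V : FDRep ℂ G) {F : G → ℂ} (hF : IsClass F) (y : G) :
    (∑ g, F g • V.ρ g) * V.ρ y = V.ρ y * ∑ g, F g • V.ρ g := by
  rw [Finset.sum_mul, Finset.mul_sum, ← Equiv.sum_comp (MulAut.conj y).toEquiv]
  refine Finset.sum_congr rfl fun g _ => ?_
  simp [hF g y, ← map_mul]

theorem isChar_reg : IsChar (fun g : G => if g = 1 then (Nat.card G : ℂ) else 0) := by
  let ρ : Representation ℂ G (G → ℂ) :=
    { toFun := fun g => LinearMap.funLeft ℂ ℂ (fun x => x * g)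
      map_one' := by ext; simp
      map_mul' := fun g h => by ext; simp [LinearMap.funLeft, mul_assoc] }
  have : ρ.character = fun g : G => if g = 1 then (Nat.card G : ℂ) else 0 := by
    ext g
    rw [Representation.character, LinearMap.trace_eq_matrix_trace ℂ (Pi.basisFun ℂ G)]
    by_cases h : g = 1 <;> simp [Matrix.trace, ρ, h, LinearMap.funLeft, Pi.single_apply]
  exact this ▸ isChar_of_rep ρ

theorem complete {F : G → ℂ} (hF : IsClass F) (h : ∀ ψ, IsIrr ψ → ip F ψ = 0) : F = 0 := by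
  have key : ∀ f ∈ AddSubmonoid.closure {f : G → ℂ | IsIrr f}, ∀ y, ∑ g, F g⁻¹ * f (g * y) = 0 := by
    intro f hf
    induction hf using AddSubmonoid.closure_induction with
    | mem f hf =>
      have h0 := h f hf
      obtain ⟨d, hd, hd1⟩ := IsIrr.one_ne_zero hf
      obtain ⟨V, hV, rfl⟩ := hf
      have hF' : IsClass (fun g => F g⁻¹) := fun g y => by
        simp only [mul_inv_rev, inv_inv, ← mul_assoc, hF g⁻¹ y]
      obtain ⟨c, hc⟩ := schur V hV _ (class_comm V hF')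
      have h1 := congrArg (LinearMap.trace ℂ V) hc
      rw [ip_comm, ip, mul_eq_zero, or_iff_right (inv_ne_zero card_ne)] at h0
      simp only [map_sum, map_smul, smul_eq_mul, LinearMap.trace_one] at h1
      have h2 : ∑ x, F x⁻¹ * (LinearMap.trace ℂ V) (V.ρ x) = 0 := by
        rw [← h0]; exact Finset.sum_congr rfl fun g _ => mul_comm _ _
      rw [h2, ← V.char_one, hd1] at h1
      have hc0 : c = 0 := by
        have : (d : ℂ) ≠ 0 := by exact_mod_cast hd.ne'
        exact (mul_eq_zero.1 h1.symm).resolve_right this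
      intro y
      have h3 := congrArg (fun Z => LinearMap.trace ℂ V (Z * V.ρ y)) hc
      simp only [hc0, zero_smul, zero_mul, map_zero, Finset.sum_mul, map_sum, smul_mul_assoc,
        map_smul, smul_eq_mul, ← map_mul] at h3
      exact h3
    | zero => simp
    | add f f' _ _ h1 h2 => intro y; simp [mul_add, Finset.sum_add_distrib, h1 y, h2 y]
  ext y
  have := key _ isChar_reg.mem_closure y
  simp only [mul_eq_one_iff_eq_inv, mul_ite, mul_zero, Finset.sum_ite_eq', mem_univ, if_true,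
    inv_inv] at this
  exact (mul_eq_zero.1 this).resolve_right card_ne

theorem irr_finite : {f : G → ℂ | IsIrr f}.Finite := by
  have : LinearIndependent ℂ (Subtype.val : {f : G → ℂ | IsIrr f} → G → ℂ) := by
    rw [linearIndependent_iff']
    intro s c hs i hi
    have h1 := congrArg (fun f => ip f i.1) hs
    simp only [ip_sum, ip_smul, ip_zero] at h1
    rw [Finset.sum_eq_single i] at h1
    · rwa [IsIrr.ip_eq i.2 i.2, if_pos rfl, mul_one] at h1
    · intro j _ hj
      rw [IsIrr.ip_eq j.2 i.2, if_neg (fun e => hj (Subtype.ext e)), mul_zero]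
    · exact fun h => absurd hi h
  exact this.set_finite_of_isNoetherian

variable (G) in
noncomputable def irrs : Finset (G → ℂ) := (irr_finite (G := G)).toFinset

theorem mem_irrs {f : G → ℂ} : f ∈ irrs G ↔ IsIrr f := by simp [irrs]

theorem expand {F : G → ℂ} (hF : IsClass F) : F = ∑ ψ ∈ irrs G, ip F ψ • ψ := by
  rw [← sub_eq_zero]
  apply complete
  · intro g y
    simp only [Pi.sub_apply, hF g y, Finset.sum_apply, Pi.smul_apply]
    congr 1
    exact Finset.sum_congr rfl fun ψ hψ => by rw [(mem_irrs.1 hψ).isChar.isClass g y]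
  · intro ψ hψ
    rw [ip_sub, ip_sum, Finset.sum_eq_single ψ]
    · rw [ip_smul, hψ.ip_eq hψ]; simp
    · intro η hη hne
      rw [ip_smul, (mem_irrs.1 hη).ip_eq hψ, if_neg hne, mul_zero]
    · exact fun h => absurd (mem_irrs.2 hψ) h

end Pool.Agent.P.MP_b1ffdf_al
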