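import Mathlib

set_option autoImplicit false

namespace Pool.Agent.P.MP_b1ffdf_al

open IntermediateField

/-- Every automorphism of a subfield of the complex numbers extends to a ring endomorphism. -/
theorem exists_extend (L : IntermediateField ℚ ℂ) (σ : L ≃ₐ[ℚ] L) :
    ∃ φ : ℂ →+* ℂ, ∀ x : L, φ x = σ x := by
  obtain ⟨s, hs⟩ := exists_isTranscendenceBasis L ℂ
  letI := IsAlgClosed.isAlgClosure_of_transcendence_basis _ hs
  let e : Algebra.adjoin L (Set.range (Subtype.val : s → ℂ)) ≃+*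
      Algebra.adjoin L (Set.range (Subtype.val : s → ℂ)) :=
    (hs.1.aevalEquiv.symm.toRingEquiv.trans (MvPolynomial.mapEquiv s σ.toRingEquiv)).trans
      hs.1.aevalEquiv.toRingEquiv
  refine ⟨(IsAlgClosure.equivOfEquiv ℂ ℂ e).toRingHom, fun x => ?_⟩
  have h1 := IsAlgClosure.equivOfEquiv_algebraMap ℂ ℂ e
    (algebraMap L (Algebra.adjoin L (Set.range (Subtype.val : s → ℂ))) x)
  have h2 : e (algebraMap L (Algebra.adjoin L (Set.range (Subtype.val : s → ℂ))) x) =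
      algebraMap L (Algebra.adjoin L (Set.range (Subtype.val : s → ℂ))) (σ x) := by
    simp only [e]
    simp
    exact hs.1.aevalEquiv.commutes (σ x)
  rw [h2] at h1
  exact h1

variable {n : ℕ} {ζ : ℂ}

theorem cyc (hn : 0 < n) (hζ : IsPrimitiveRoot ζ n) : IsCyclotomicExtension {n} ℚ ℚ⟮ζ⟯ := by
  haveI : NeZero n := ⟨hn.ne'⟩
  change IsCyclotomicExtension {n} ℚ (IntermediateField.adjoin ℚ {ζ}).toSubalgebra
  rw [IntermediateField.adjoin_simple_toSubalgebra_of_isAlgebraic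
    ((hζ.isIntegral hn).tower_top (A := ℚ)).isAlgebraic]
  exact hζ.adjoin_isCyclotomicExtension ℚ

theorem exists_pow_hom (hn : 0 < n) (hζ : IsPrimitiveRoot ζ n) {k : ℕ} (hk : k.Coprime n) :
    ∃ φ : ℂ →+* ℂ, φ ζ = ζ ^ k := by
  haveI : NeZero n := ⟨hn.ne'⟩
  haveI := cyc hn hζ
  have hζ' : IsPrimitiveRoot (AdjoinSimple.gen ℚ ζ) n :=
    IsPrimitiveRoot.coe_submonoidClass_iff.mp hζ
  have hirr := Polynomial.cyclotomic.irreducible_rat hn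
  haveI : FiniteDimensional ℚ ℚ⟮ζ⟯ := IsCyclotomicExtension.finiteDimensional {n} ℚ _
  let f : ℚ⟮ζ⟯ →ₐ[ℚ] ℚ⟮ζ⟯ := (hζ'.embeddingsEquivPrimitiveRoots ℚ⟮ζ⟯ hirr).symm
    ⟨(AdjoinSimple.gen ℚ ζ) ^ k, (mem_primitiveRoots hn).2 (hζ'.pow_of_coprime k hk)⟩
  have hf : f (AdjoinSimple.gen ℚ ζ) = (AdjoinSimple.gen ℚ ζ) ^ k := by
    rw [← hζ'.embeddingsEquivPrimitiveRoots_apply_coe ℚ⟮ζ⟯ hirr]
    simp [f]
  obtain ⟨φ, hφ⟩ := exists_extend ℚ⟮ζ⟯ (AlgEquiv.ofBijective f f.bijective)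
  refine ⟨φ, ?_⟩
  have := hφ (AdjoinSimple.gen ℚ ζ)
  rw [AlgEquiv.ofBijective_apply, hf] at this
  simpa using this

theorem exists_pow_of_hom (hn : 0 < n) (hζ : IsPrimitiveRoot ζ n) (φ : ℂ →+* ℂ) :
    ∃ k : ℕ, k.Coprime n ∧ φ ζ = ζ ^ k := by
  haveI : NeZero n := ⟨hn.ne'⟩
  have h := hζ.map_of_injective φ.injective
  obtain ⟨k, -, hk, h2⟩ := (hζ.isPrimitiveRoot_iff).1 h
  exact ⟨k, hk, h2.symm⟩

theorem mem_adjoin_of_fixed (hn : 0 < n) (hζ : IsPrimitiveRoot ζ n) (S : Set ℂ)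
    (hS : ∀ s ∈ S, s ∈ ℚ⟮ζ⟯) {x : ℂ} (hx : x ∈ ℚ⟮ζ⟯)
    (h : ∀ φ : ℂ →+* ℂ, (∀ s ∈ S, φ s = s) → φ x = x) : x ∈ adjoin ℚ S := by
  haveI : NeZero n := ⟨hn.ne'⟩
  haveI := cyc hn hζ
  haveI : FiniteDimensional ℚ ℚ⟮ζ⟯ := IsCyclotomicExtension.finiteDimensional {n} ℚ _
  haveI : IsGalois ℚ ℚ⟮ζ⟯ := IsCyclotomicExtension.isGalois {n} ℚ _
  let K : IntermediateField ℚ ℚ⟮ζ⟯ := (adjoin ℚ S).comap (ℚ⟮ζ⟯).val
  have hK : (⟨x, hx⟩ : ℚ⟮ζ⟯) ∈ K := by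
    rw [← IsGalois.fixedField_fixingSubgroup K, mem_fixedField_iff]
    intro σ hσ
    rw [IntermediateField.mem_fixingSubgroup_iff] at hσ
    obtain ⟨φ, hφ⟩ := exists_extend ℚ⟮ζ⟯ σ
    have := h φ (fun s hs => by
      have h1 := hφ ⟨s, hS s hs⟩
      rw [hσ ⟨s, hS s hs⟩ (subset_adjoin ℚ S hs)] at h1
      exact h1)
    apply Subtype.ext
    rw [← hφ]
    exact this
  exact hK

end Pool.Agent.P.MP_b1ffdf_al
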