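import Pool.Agent.P.MP_b1ffdf_al.Chars

set_option autoImplicit false

open CategoryTheory Classical Finset

namespace Pool.Agent.P.MP_b1ffdf_al

theorem int_lemma {ι : Type*} (s : Finset ι) (c : ι → ℤ) (d : ι → ℤ) (hd : ∀ i ∈ s, 0 < d i)
    (h0 : ∑ i ∈ s, c i * d i = 0) (h2 : ∑ i ∈ s, c i ^ 2 ≤ 2) (hne : ∃ i ∈ s, c i ≠ 0) :
    ∃ i ∈ s, ∃ j ∈ s, i ≠ j ∧ c i = 1 ∧ c j = -1 ∧ ∀ l ∈ s, l ≠ i → l ≠ j → c l = 0 := by
  obtain ⟨k, hk, hk0⟩ := hne
  have hp : ∃ i ∈ s, 0 < c i := by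
    by_contra h
    push Not at h
    have := (Finset.sum_eq_zero_iff_of_nonpos
      (fun i hi => mul_nonpos_of_nonpos_of_nonneg (h i hi) (hd i hi).le)).1 h0 k hk
    rcases mul_eq_zero.1 this with h | h
    · exact hk0 h
    · exact (hd k hk).ne' h
  have hm : ∃ i ∈ s, c i < 0 := by
    by_contra h
    push Not at h
    have := (Finset.sum_eq_zero_iff_of_nonneg
      (fun i hi => mul_nonneg (h i hi) (hd i hi).le)).1 h0 k hk
    rcases mul_eq_zero.1 this with h | h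
    · exact hk0 h
    · exact (hd k hk).ne' h
  obtain ⟨i, hi, hi0⟩ := hp
  obtain ⟨j, hj, hj0⟩ := hm
  have hij : i ≠ j := by rintro rfl; omega
  have hj' : j ∈ s.erase i := Finset.mem_erase.2 ⟨hij.symm, hj⟩
  rw [← Finset.add_sum_erase _ _ hi, ← Finset.add_sum_erase _ _ hj'] at h2
  have h3 : 0 ≤ ∑ l ∈ (s.erase i).erase j, c l ^ 2 := Finset.sum_nonneg fun _ _ => sq_nonneg _
  have e1 : c i = 1 := by nlinarith
  have e2 : c j = -1 := by nlinarith
  refine ⟨i, hi, j, hj, hij, e1, e2, fun l hl h1 h2' => ?_⟩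
  have h4 : ∑ l ∈ (s.erase i).erase j, c l ^ 2 = 0 := by rw [e1, e2] at h2; omega
  have := (Finset.sum_eq_zero_iff_of_nonneg (fun _ _ => sq_nonneg _)).1 h4 l
    (Finset.mem_erase.2 ⟨h2', Finset.mem_erase.2 ⟨h1, hl⟩⟩)
  exact pow_eq_zero_iff (two_ne_zero) |>.1 this

variable {G : Type} [Group G] [Fintype G]

theorem sum_sub {β : Type*} [AddCommMonoid β] (M : Subgroup G) (h : G → β) :
    ∑ x : M, h x = ∑ g, if g ∈ M then h g else 0 := by
  rw [← Finset.sum_filter]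
  exact (Finset.sum_subtype _ (by simp) h).symm

theorem ti_card (M : Subgroup G) (A : Set G)
    (hAc : ∀ a ∈ A, ∀ y ∈ M, y * a * y⁻¹ ∈ A) (hTI : ∀ a ∈ A, ∀ y, y * a * y⁻¹ ∈ A → y ∈ M)
    {β : Type*} [AddCommMonoid β] (g : G) (c : β) :
    ∑ y : G, (if y * g * y⁻¹ ∈ A then c else 0) =
      if ∃ y, y * g * y⁻¹ ∈ A then Nat.card M • c else 0 := by
  split_ifs with hg
  · obtain ⟨y0, hy0⟩ := hg
    rw [← Equiv.sum_comp (Equiv.mulRight y0)]
    have : ∀ y : G, (y * y0 * g * (y * y0)⁻¹ ∈ A) ↔ y ∈ M := by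
      intro y
      have e : y * y0 * g * (y * y0)⁻¹ = y * (y0 * g * y0⁻¹) * y⁻¹ := by group
      rw [e]
      exact ⟨hTI _ hy0 y, hAc _ hy0 y⟩
    simp only [Equiv.coe_mulRight, this]
    rw [← Finset.sum_filter, Finset.sum_const, Nat.card_eq_fintype_card, Fintype.card_subtype]
  · push Not at hg
    simp [hg]

theorem ti_count (M : Subgroup G) (A : Set G)
    (hAc : ∀ a ∈ A, ∀ y ∈ M, y * a * y⁻¹ ∈ A) (hTI : ∀ a ∈ A, ∀ y, y * a * y⁻¹ ∈ A → y ∈ M)
    (h : G → ℝ) (hh : ∀ g y, h (y * g * y⁻¹) = h g) :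
    (Nat.card G : ℝ) * ∑ g, (if g ∈ A then h g else 0) =
      (Nat.card M : ℝ) * ∑ g, (if ∃ y, y * g * y⁻¹ ∈ A then h g else 0) := by
  have h1 : ∀ y : G, ∑ g, (if g ∈ A then h g else 0) =
      ∑ g, (if y * g * y⁻¹ ∈ A then h g else 0) := by
    intro y
    rw [← Equiv.sum_comp (MulAut.conj y).toEquiv]
    simp [hh]
  have h2 : (Nat.card G : ℝ) * ∑ g, (if g ∈ A then h g else 0) =
      ∑ y : G, ∑ g, (if y * g * y⁻¹ ∈ A then h g else 0) := by
    simp [← h1]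
  rw [h2, Finset.sum_comm, Finset.mul_sum]
  refine Finset.sum_congr rfl fun g _ => ?_
  rw [ti_card M A hAc hTI]
  split_ifs <;> simp

theorem ip_self_of_conj {F : G → ℂ} (hF : ∀ g, F g⁻¹ = starRingEnd ℂ (F g)) :
    ip F F = (((Nat.card G : ℝ)⁻¹ * ∑ g, Complex.normSq (F g) : ℝ) : ℂ) := by
  simp [ip, hF, Complex.mul_conj]

theorem eq_of_sub_eq {a b c d : G → ℂ} (ha : IsIrr a) (hb : IsIrr b) (hc : IsIrr c) (hd : IsIrr d)
    (hab : a ≠ b) (h : c - d = a - b) : c = a := by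
  have h1 := congrArg (fun f => ip f a) h
  simp only [ip_sub, hc.ip_eq ha, hd.ip_eq ha, ha.ip_eq ha, hb.ip_eq ha, if_neg hab.symm] at h1
  by_contra h2
  rw [if_neg h2] at h1
  split_ifs at h1 <;> norm_num at h1

theorem main {χ : G → ℂ} (hχ : IsIrr χ) (M : Subgroup G) (A : Set G) (hAM : ∀ a ∈ A, a ∈ M)
    (hAc : ∀ a ∈ A, ∀ y ∈ M, y * a * y⁻¹ ∈ A) (hTI : ∀ a ∈ A, ∀ y, y * a * y⁻¹ ∈ A → y ∈ M)
    (φ0 : ℂ →+* ℂ) (hne : ∃ a ∈ A, φ0 (χ a) ≠ χ a)
    (hint : ∀ η : M → ℂ, IsIrr η →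
      ∃ z : ℤ, ip (fun x : M => if (x : G) ∈ A then χ x - φ0 (χ x) else 0) η = z) :
    ∃ ψ ψ' : M → ℂ, IsIrr ψ ∧ IsIrr ψ' ∧
      (fun x : M => if (x : G) ∈ A then χ x - φ0 (χ x) else 0) = ψ - ψ' ∧
      (∀ g, χ g - φ0 (χ g) ≠ 0 → ∃ y, y * g * y⁻¹ ∈ A) ∧
      IntermediateField.adjoin ℚ (Set.range χ) = IntermediateField.adjoin ℚ (Set.range ψ) := by
  obtain ⟨a0, ha0, hne0⟩ := hne
  have hχ' : IsIrr (φ0 ∘ χ) := hχ.twist φ0
  have hχne : χ ≠ φ0 ∘ χ := fun h => hne0 (congrFun h a0).symm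
  set f : G → ℂ := χ - φ0 ∘ χ with hf
  have hfc : IsClass f := fun g y => by
    simp only [hf, Pi.sub_apply, hχ.isChar.isClass g y, hχ'.isChar.isClass g y]
  have hfconj : ∀ g, f g⁻¹ = starRingEnd ℂ (f g) := fun g => by
    simp only [hf, Pi.sub_apply, hχ.isChar.conj g, hχ'.isChar.conj g, map_sub]
  have hff : ip f f = 2 := by
    rw [hf, ip_sub, ip_comm χ, ip_comm (φ0 ∘ χ), ip_sub, ip_sub, hχ.ip_eq hχ, hχ.ip_eq hχ',
      hχ'.ip_eq hχ, hχ'.ip_eq hχ', if_pos rfl, if_pos rfl, if_neg hχne, if_neg hχne.symm]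
    norm_num
  have hG : (0 : ℝ) < Nat.card G := by exact_mod_cast Nat.card_pos
  have hM : (0 : ℝ) < Nat.card M := by exact_mod_cast Nat.card_pos
  have hfn : ∑ g, Complex.normSq (f g) = 2 * Nat.card G := by
    rw [ip_self_of_conj hfconj] at hff
    have : ((Nat.card G : ℝ)⁻¹ * ∑ g, Complex.normSq (f g) : ℝ) = 2 := by exact_mod_cast hff
    field_simp at this
    linarith
  set F : M → ℂ := fun x : M => if (x : G) ∈ A then χ x - φ0 (χ x) else 0 with hF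
  have hFf : ∀ x : M, F x = if (x : G) ∈ A then f x else 0 := fun x => rfl
  have hFc : IsClass F := by
    intro g y
    have : ((y * g * y⁻¹ : M) : G) ∈ A ↔ (g : G) ∈ A := by
      constructor
      · intro h
        simpa [mul_assoc] using hAc _ h (y⁻¹ : M) (y⁻¹).2
      · intro h
        exact hAc _ h y y.2
    rw [hFf, hFf, this]
    simp [hfc g y]
  choose! c hc using hint
  have hexp : F = ∑ ψ ∈ irrs M, (c ψ : ℂ) • ψ := by
    conv_lhs => rw [expand hFc]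
    exact Finset.sum_congr rfl fun ψ hψ => by rw [hc ψ (mem_irrs.1 hψ)]
  have hFconj : ∀ g, F g⁻¹ = starRingEnd ℂ (F g) := fun g => by
    rw [hexp]
    simp only [Finset.sum_apply, Pi.smul_apply, smul_eq_mul, map_sum, map_mul, map_intCast]
    exact Finset.sum_congr rfl fun ψ hψ => by rw [(mem_irrs.1 hψ).isChar.conj]
  have hFF : ip F F = ((∑ ψ ∈ irrs M, c ψ ^ 2 : ℤ) : ℂ) := by
    conv_lhs => lhs; rw [hexp]
    rw [ip_sum]
    push_cast
    exact Finset.sum_congr rfl fun ψ hψ => by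
      rw [ip_smul, ip_comm, hc ψ (mem_irrs.1 hψ), sq]
  have hcount := ti_count M A hAc hTI (fun g => Complex.normSq (f g)) (fun g y => by rw [hfc g y])
  have hsumM : ∑ x : M, Complex.normSq (F x) = ∑ g, (if g ∈ A then Complex.normSq (f g) else 0) := by
    have h1 : ∀ x : M, Complex.normSq (F x) =
        (fun g => if g ∈ A then Complex.normSq (f g) else 0) (x : G) := fun x => by
      simp only [hFf]; split_ifs <;> simp
    simp only [h1]
    rw [sum_sub M (fun g => if g ∈ A then Complex.normSq (f g) else 0)]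
    refine Finset.sum_congr rfl fun g _ => ?_
    by_cases h : g ∈ A
    · simp [h, hAM g h]
    · simp [h]
  have hS : ∑ g, (if ∃ y, y * g * y⁻¹ ∈ A then Complex.normSq (f g) else 0) =
      (Nat.card G : ℝ) * ((∑ ψ ∈ irrs M, c ψ ^ 2 : ℤ) : ℝ) := by
    rw [ip_self_of_conj hFconj] at hFF
    have h1 : ((Nat.card M : ℝ)⁻¹ * ∑ g, Complex.normSq (F g) : ℝ) =
        ((∑ ψ ∈ irrs M, c ψ ^ 2 : ℤ) : ℝ) := by exact_mod_cast hFF
    rw [← h1, hsumM]
    field_simp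
    linarith
  have hle : ∀ g, (if ∃ y, y * g * y⁻¹ ∈ A then Complex.normSq (f g) else 0) ≤
      Complex.normSq (f g) := fun g => by
    split_ifs
    · exact le_rfl
    · exact Complex.normSq_nonneg _
  have hc2 : ∑ ψ ∈ irrs M, c ψ ^ 2 ≤ 2 := by
    have h1 := Finset.sum_le_sum (s := univ) fun g _ => hle g
    rw [hS, hfn] at h1
    have : ((∑ ψ ∈ irrs M, c ψ ^ 2 : ℤ) : ℝ) ≤ 2 := by nlinarith
    exact_mod_cast this
  have hdeg : ∀ ψ : M → ℂ, IsIrr ψ → ∃ d : ℤ, 0 < d ∧ ψ 1 = d := fun ψ hψ => by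
    obtain ⟨d, h1, h2⟩ := hψ.one_ne_zero
    exact ⟨d, by exact_mod_cast h1, by exact_mod_cast h2⟩
  choose! d hd0 hd using hdeg
  have hF1 : ∑ ψ ∈ irrs M, c ψ * d ψ = 0 := by
    have h1 : F 1 = 0 := by
      obtain ⟨e, -, he⟩ := hχ.one_ne_zero
      simp [hF, he]
    rw [hexp] at h1
    simp only [Finset.sum_apply, Pi.smul_apply, smul_eq_mul] at h1
    have : ((∑ ψ ∈ irrs M, c ψ * d ψ : ℤ) : ℂ) = 0 := by
      push_cast
      rw [← h1]
      exact Finset.sum_congr rfl fun ψ hψ => by rw [hd ψ (mem_irrs.1 hψ)]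
    exact_mod_cast this
  have hFne : ∃ ψ ∈ irrs M, c ψ ≠ 0 := by
    by_contra h
    push Not at h
    have h1 : F ⟨a0, hAM a0 ha0⟩ = 0 := by
      rw [hexp, Finset.sum_apply]
      exact Finset.sum_eq_zero fun ψ hψ => by simp [h ψ hψ]
    simp only [hF, ha0, if_true] at h1
    exact hne0 (sub_eq_zero.1 h1).symm
  obtain ⟨ψ, hψ, ψ', hψ', hψψ, e1, e2, e3⟩ :=
    int_lemma _ c d (fun i hi => hd0 i (mem_irrs.1 hi)) hF1 hc2 hFne
  have hψ'' : ψ' ∈ (irrs M).erase ψ := Finset.mem_erase.2 ⟨hψψ.symm, hψ'⟩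
  have e4 : ∀ l ∈ ((irrs M).erase ψ).erase ψ', c l = 0 := fun l hl => by
    simp only [Finset.mem_erase] at hl
    exact e3 l hl.2.2 hl.2.1 hl.1
  have hFψ : F = ψ - ψ' := by
    rw [hexp, ← Finset.add_sum_erase _ _ hψ, ← Finset.add_sum_erase _ _ hψ'',
      Finset.sum_eq_zero (fun l hl => by rw [e4 l hl]; simp), e1, e2]
    simp [sub_eq_add_neg]
  have hc2' : ∑ ψ ∈ irrs M, c ψ ^ 2 = 2 := by
    rw [← Finset.add_sum_erase _ _ hψ, ← Finset.add_sum_erase _ _ hψ'',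
      Finset.sum_eq_zero (fun l hl => by rw [e4 l hl]; simp), e1, e2]
    norm_num
  have hsupp : ∀ g, f g ≠ 0 → ∃ y, y * g * y⁻¹ ∈ A := by
    intro g hg
    rw [hc2'] at hS
    have h1 := (Finset.sum_eq_sum_iff_of_le (s := univ) fun g _ => hle g).1
      (by rw [hS, hfn]; push_cast; ring) g (mem_univ _)
    by_contra h
    rw [if_neg h] at h1
    exact hg (Complex.normSq_eq_zero.1 h1.symm)
  rw [mem_irrs] at hψ hψ'
  have hn : 0 < Nat.card G := Nat.card_pos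
  have hζ := Complex.isPrimitiveRoot_exp _ hn.ne'
  set ζ := Complex.exp (2 * Real.pi * Complex.I / (Nat.card G))
  have hpM : ∀ x : M, x ^ Nat.card G = 1 := fun x => Subtype.ext (by simp [pow_card_eq_one'])
  have dir1 : ∀ φ : ℂ →+* ℂ, φ ∘ χ = χ → φ ∘ ψ = ψ := by
    intro φ hφ
    refine eq_of_sub_eq hψ hψ' (hψ.twist φ) (hψ'.twist φ) hψψ ?_
    ext x
    have h1 : φ (F x) = F x := by
      have := congrFun hφ x
      simp only [Function.comp_apply] at this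
      simp only [hF]
      split_ifs
      · rw [map_sub, hχ.isChar.twist_comm φ φ0, this]
      · simp
    rw [hFψ] at h1
    simpa using h1
  have horb : ∃ i : ℕ, φ0^[i] ∘ ψ = ψ' := by
    obtain ⟨k, hk, hφk⟩ := exists_pow_of_hom hn hζ φ0
    obtain ⟨N, hN, hkN⟩ : ∃ N, 0 < N ∧ k ^ N ≡ 1 [MOD Nat.card G] :=
      ⟨_, Nat.totient_pos.2 hn, Nat.ModEq.pow_totient hk⟩
    have hit : ∀ i, ∃ φ : ℂ →+* ℂ, φ0^[i] = φ := fun i => ⟨φ0 ^ i, by rw [RingHom.coe_pow]⟩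
    have h1 : ∀ i g, φ0^[i] (χ g) = χ (g ^ k ^ i) := by
      intro i
      induction i with
      | zero => simp
      | succ i ih =>
        intro g
        rw [Function.iterate_succ_apply', ih,
          hχ.isChar.map_pow hn hζ (pow_card_eq_one') hφk, ← pow_mul, pow_succ]
    have h2 : ∑ i ∈ range N, φ0^[i] ∘ ψ = ∑ i ∈ range N, φ0^[i] ∘ ψ' := by
      rw [← sub_eq_zero, ← Finset.sum_sub_distrib]
      ext x
      have h3 : ∀ i, (φ0^[i] ∘ ψ - φ0^[i] ∘ ψ') x =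
          if (x : G) ∈ A then φ0^[i] (χ x) - φ0^[i + 1] (χ x) else 0 := by
        intro i
        have h4 := congrFun hFψ x
        rw [Function.iterate_succ_apply]
        obtain ⟨φ, hφ⟩ := hit i
        rw [hφ]
        simp only [Pi.sub_apply, Function.comp_apply] at h4 ⊢
        rw [← map_sub, ← h4]
        simp only [hF]
        split_ifs <;> simp
      rw [Finset.sum_apply]
      simp only [h3]
      split_ifs
      · rw [Finset.sum_range_sub' (fun i => φ0^[i] (χ x)), h1, h1, pow_zero,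
          pow_eq_pow_iff_modEq.2 (hkN.of_dvd (orderOf_dvd_natCard (x : G)))]
        simp
      · simp
    by_contra hcon
    push Not at hcon
    have h5 := congrArg (fun f => ip f ψ') h2
    simp only [ip_sum] at h5
    rw [Finset.sum_eq_zero (fun i _ => by
      obtain ⟨φ, hφ⟩ := hit i
      have := hcon i
      rw [hφ] at this ⊢
      rw [(hψ.twist φ).ip_eq hψ', if_neg this])] at h5
    have h6 : ∀ i, ip (φ0^[i] ∘ ψ') ψ' = ((if φ0^[i] ∘ ψ' = ψ' then 1 else 0 : ℕ) : ℂ) := by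
      intro i
      obtain ⟨φ, hφ⟩ := hit i
      rw [hφ, (hψ'.twist φ).ip_eq hψ']
      split_ifs <;> simp
    simp only [h6] at h5
    have h7 : ∑ i ∈ range N, (if φ0^[i] ∘ ψ' = ψ' then 1 else 0 : ℕ) = 0 := by
      exact_mod_cast h5.symm
    have := Finset.sum_eq_zero_iff.1 h7 0 (mem_range.2 hN)
    simp at this
  have dir2 : ∀ φ : ℂ →+* ℂ, φ ∘ ψ = ψ → φ ∘ χ = χ := by
    intro φ hφ
    obtain ⟨i, hi⟩ := horb
    have h1 : ∀ x, φ (ψ' x) = ψ' x := by
      intro x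
      have := congrFun hφ x
      simp only [Function.comp_apply] at this
      rw [← hi, ← RingHom.coe_pow, Function.comp_apply, hψ.isChar.twist_comm φ, this]
    have h2 : ∀ g, φ (f g) = f g := by
      intro g
      by_cases hg : f g = 0
      · simp [hg]
      obtain ⟨y, hy⟩ := hsupp g hg
      have h3 := hFf ⟨_, hAM _ hy⟩
      simp only [hy, if_true, hfc g y] at h3
      have := congrFun hφ ⟨_, hAM _ hy⟩
      simp only [Function.comp_apply] at this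
      rw [← h3, hFψ, Pi.sub_apply, map_sub, this, h1]
    refine eq_of_sub_eq hχ hχ' (hχ.twist φ) (hχ'.twist φ) hχne ?_
    ext g
    simpa [hf] using h2 g
  refine ⟨ψ, ψ', hψ, hψ', hFψ, hsupp, le_antisymm ?_ ?_⟩
  · rw [IntermediateField.adjoin_le_iff]
    rintro _ ⟨g, rfl⟩
    refine mem_adjoin_of_fixed hn hζ _ ?_ (hχ.isChar.mem_field hn hζ pow_card_eq_one') ?_
    · rintro _ ⟨x, rfl⟩
      exact hψ.isChar.mem_field hn hζ (hpM x)
    · intro φ hφ
      exact congrFun (dir2 φ (funext fun x => hφ _ ⟨x, rfl⟩)) g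
  · rw [IntermediateField.adjoin_le_iff]
    rintro _ ⟨g, rfl⟩
    refine mem_adjoin_of_fixed hn hζ _ ?_ (hψ.isChar.mem_field hn hζ (hpM g)) ?_
    · rintro _ ⟨x, rfl⟩
      exact hχ.isChar.mem_field hn hζ pow_card_eq_one'
    · intro φ hφ
      exact congrFun (dir1 φ (funext fun x => hφ _ ⟨x, rfl⟩)) g

end Pool.Agent.P.MP_b1ffdf_al
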