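import Pool.Agent.P.MP_b1ffdf_al.Main

set_option autoImplicit false

open CategoryTheory Classical Finset

namespace Pool.Agent.P.MP_b1ffdf_al

variable {G : Type} [Group G] [Fintype G]

/-- The conclusion of the conjecture for the character `χ`. -/
def Concl (χ : G → ℂ) : Prop :=
  ∃ (H : Subgroup G) (W : FDRep ℂ H), H ≠ ⊤ ∧ Subgroup.normalizer (H : Set G) = H ∧ Simple W ∧
    IntermediateField.adjoin ℚ (Set.range χ) = IntermediateField.adjoin ℚ (Set.range W.character)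

theorem exists_k {χ : G → ℂ} (hχ : IsChar χ) {ζ : ℂ} (hζ : IsPrimitiveRoot ζ (Nat.card G))
    (c : ℕ) {h : G} (hh : χ h ∉ IntermediateField.adjoin ℚ {z : ℂ | z ^ c = 1}) :
    ∃ (φ : ℂ →+* ℂ) (k : ℕ), φ ζ = ζ ^ k ∧ k.Coprime (Nat.card G) ∧
      k ≡ 1 [MOD Nat.gcd c (Nat.card G)] ∧ φ (χ h) ≠ χ h := by
  have hn : 0 < Nat.card G := Nat.card_pos
  haveI : NeZero (Nat.card G) := ⟨hn.ne'⟩
  by_contra hcon
  push Not at hcon
  refine hh (IntermediateField.adjoin.mono ℚ {z : ℂ | z ^ c = 1 ∧ z ^ Nat.card G = 1} _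
    (fun z hz => hz.1) (mem_adjoin_of_fixed hn hζ _ ?_ (hχ.mem_field hn hζ pow_card_eq_one') ?_))
  · intro s hs
    obtain ⟨i, -, rfl⟩ := hζ.eq_pow_of_pow_eq_one hs.2
    exact pow_mem (IntermediateField.mem_adjoin_simple_self ℚ ζ) _
  · intro φ hφ
    obtain ⟨k, hk, hφk⟩ := exists_pow_of_hom hn hζ φ
    refine hcon φ k hφk hk ?_
    obtain ⟨e, he⟩ := Nat.gcd_dvd_right c (Nat.card G)
    have hξ : IsPrimitiveRoot (ζ ^ e) (Nat.gcd c (Nat.card G)) :=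
      hζ.pow hn (he.trans (mul_comm _ _))
    have h1 := hφ (ζ ^ e) ⟨(hξ.pow_eq_one_iff_dvd c).2 (Nat.gcd_dvd_left _ _),
      (hξ.pow_eq_one_iff_dvd _).2 (Nat.gcd_dvd_right _ _)⟩
    rw [map_pow, hφk, ← pow_mul, mul_comm, pow_mul] at h1
    have hd : 0 < Nat.gcd c (Nat.card G) := Nat.gcd_pos_of_pos_right _ hn
    have h2 : (ζ ^ e) ^ k = (ζ ^ e) ^ 1 := by rw [h1, pow_one]
    rw [(hξ.isOfFinOrder hd.ne').pow_eq_pow_iff_modEq, ← hξ.eq_orderOf] at h2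
    exact h2

theorem pow_eq_self_of {g : G} {c k : ℕ} (hg : g ^ c = 1)
    (hk : k ≡ 1 [MOD Nat.gcd c (Nat.card G)]) : g ^ k = g := by
  have : g ^ k = g ^ 1 := pow_eq_pow_iff_modEq.2
    (hk.of_dvd (Nat.dvd_gcd (orderOf_dvd_of_pow_eq_one hg) (orderOf_dvd_natCard g)))
  rw [this, pow_one]

theorem mem_of_pow {χ : G → ℂ} (hχ : IsChar χ) {c : ℕ} (hc : 0 < c) {g : G} (hg : g ^ c = 1) :
    χ g ∈ IntermediateField.adjoin ℚ {z : ℂ | z ^ c = 1} := by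
  have hξ := Complex.isPrimitiveRoot_exp _ hc.ne'
  exact IntermediateField.adjoin.mono ℚ _ _ (by simpa using hξ.pow_eq_one)
    (hχ.mem_field hc hξ hg)

theorem split_card (p : ℕ) (hp : p.Prime) : ∃ N m : ℕ, ¬ p ∣ m ∧ Nat.card G = m * p ^ N := by
  obtain ⟨N, m, h1, h2⟩ := Nat.exists_eq_pow_mul_and_not_dvd (Nat.card_pos (α := G)).ne' p hp.ne_one
  exact ⟨N, m, h1, h2.trans (mul_comm _ _)⟩

theorem isPGroup_zpowers {p j : ℕ} {u : G} (hu : u ^ p ^ j = 1) :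
    IsPGroup p (Subgroup.zpowers u) := by
  rintro ⟨_, i, rfl⟩
  refine ⟨j, Subtype.ext ?_⟩
  simp only [SubgroupClass.coe_pow, OneMemClass.coe_one]
  rw [← zpow_natCast, ← zpow_mul, mul_comm, zpow_mul, zpow_natCast, hu, one_zpow]

theorem lev_mono {p a m : ℕ} (hm : ¬ p ∣ m) {x : ℂ}
    (hx : x ∉ IntermediateField.adjoin ℚ {z : ℂ | ∃ m, ¬ p ∣ m ∧ z ^ (m * p ^ a) = 1}) :
    x ∉ IntermediateField.adjoin ℚ {z : ℂ | z ^ (m * p ^ a) = 1} :=
  fun h => hx (IntermediateField.adjoin.mono ℚ _ _ (by intro _ hz; exact ⟨m, hm, hz⟩) h)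

theorem conj_mem_sylow {p j : ℕ} (hp : p.Prime) (P : Sylow p G) {u : G} (hu : u ^ p ^ j = 1) :
    ∃ y, y * u * y⁻¹ ∈ P := by
  haveI : Fact p.Prime := ⟨hp⟩
  obtain ⟨Q, hQ⟩ := (isPGroup_zpowers hu).exists_le_sylow
  obtain ⟨y, hy⟩ := MulAction.exists_smul_eq G Q P
  refine ⟨y, ?_⟩
  rw [← hy]
  exact ⟨u, hQ (Subgroup.mem_zpowers u), rfl⟩

/-- The induced class function. -/
noncomputable def ind (M : Subgroup G) (ψ : M → ℂ) (g : G) : ℂ :=
  (Nat.card M : ℂ)⁻¹ * ∑ x : G, (if h : x * g * x⁻¹ ∈ M then ψ ⟨x * g * x⁻¹, h⟩ else 0)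

theorem ind_class (M : Subgroup G) (ψ : M → ℂ) : IsClass (ind M ψ) := by
  intro g y
  unfold ind
  conv_rhs => rw [← Equiv.sum_comp (Equiv.mulRight y)]
  simp [mul_assoc]

theorem frob (M : Subgroup G) (ψ : M → ℂ) {ξ : G → ℂ} (hξ : IsClass ξ) :
    ip (ind M ψ) ξ = ip ψ (ξ ∘ M.subtype) := by
  have h1 : ∀ x : G, ∑ g, (if h : x * g * x⁻¹ ∈ M then ψ ⟨x * g * x⁻¹, h⟩ else 0) * ξ g⁻¹ =
      ∑ v : M, ψ v * ξ (v : G)⁻¹ := by
    intro x
    have h2 := sum_sub M fun g => (if h : g ∈ M then ψ ⟨g, h⟩ else 0) * ξ g⁻¹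
    simp only [SetLike.coe_mem, dite_true, Subtype.coe_eta] at h2
    rw [h2]
    conv_rhs => rw [← Equiv.sum_comp (MulAut.conj x).toEquiv]
    refine Finset.sum_congr rfl fun g _ => ?_
    have := hξ g⁻¹ x
    by_cases h : x * g * x⁻¹ ∈ M
    · simp only [MulEquiv.toEquiv_eq_coe, EquivLike.coe_coe, MulAut.conj_apply, h, if_true]
      rw [← this]
      simp [mul_assoc]
    · simp [h]
  simp only [ip, ind, mul_assoc (Nat.card M : ℂ)⁻¹, ← Finset.mul_sum, Finset.sum_mul]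
  rw [Finset.sum_comm]
  simp only [h1]
  rw [Finset.sum_const, card_univ, nsmul_eq_mul, ← Nat.card_eq_fintype_card, mul_left_comm,
    inv_mul_cancel_left₀ card_ne]
  rfl

theorem IsIrr.comp_equiv {ψ : G → ℂ} (hψ : IsIrr ψ) (e : G ≃* G) : IsIrr (ψ ∘ e) := by
  rw [isIrr_iff] at hψ ⊢
  refine ⟨hψ.1.comp e.toMonoidHom, ?_⟩
  rw [← hψ.2, ip, ip]
  conv_rhs => rw [← Equiv.sum_comp e.toEquiv]
  simp

theorem induced_of_normal (M : Subgroup G) [M.Normal] {χ χ' : G → ℂ} {ψ ψ' : M → ℂ}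
    (hχ : IsIrr χ) (hχ' : IsIrr χ') (hne : χ ≠ χ') (hψ : IsIrr ψ) (hψ' : IsIrr ψ')
    (h : ind M ψ - ind M ψ' = χ - χ') : χ = ind M ψ := by
  have hm : ∀ x g : G, ∀ hg : g ∈ M, x * g * x⁻¹ ∈ M := fun x g hg =>
    Subgroup.Normal.conj_mem inferInstance g hg x
  have h1 : ∀ x : G, ψ ≠ ψ' ∘ MulAut.conjNormal x := by
    rintro x rfl
    have : ind M (ψ' ∘ MulAut.conjNormal x) = ind M ψ' := by
      ext g
      unfold ind
      conv_rhs => rw [← Equiv.sum_comp (Equiv.mulLeft x)]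
      congr 1
      refine Finset.sum_congr rfl fun y _ => ?_
      by_cases hy : y * g * y⁻¹ ∈ M
      · have h2 : x * y * g * (x * y)⁻¹ ∈ M := by simpa [mul_assoc] using hm x _ hy
        simp only [Equiv.coe_mulLeft, hy, h2, dite_true, Function.comp_apply]
        congr 1
        apply Subtype.ext
        simp [mul_assoc]
      · have h2 : x * y * g * (x * y)⁻¹ ∉ M := fun e => hy (by
          simpa [mul_assoc] using hm x⁻¹ _ e)
        simp only [Equiv.coe_mulLeft, hy, h2, dite_false]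
    rw [this, sub_self] at h
    exact hne (sub_eq_zero.1 h.symm)
  have h2 : ip (ind M ψ) (ind M ψ') = 0 := by
    have e : ind M ψ' ∘ M.subtype = (Nat.card M : ℂ)⁻¹ • ∑ x : G, ψ' ∘ MulAut.conjNormal x := by
      ext v
      simp only [Function.comp_apply, ind, Subgroup.coe_subtype, hm _ _ v.2, dite_true,
        Pi.smul_apply, Finset.sum_apply, smul_eq_mul]
      rfl
    rw [frob M ψ (ind_class M ψ'), e, ip_comm, ip_smul, ip_sum, Finset.sum_eq_zero, mul_zero]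
    intro x _
    rw [(hψ'.comp_equiv _).ip_eq hψ, if_neg (h1 x).symm]
  have h3 : ∀ η : M → ℂ, IsIrr η → ∃ n : (G → ℂ) → ℕ, ∀ ξ ∈ irrs G, ip (ind M η) ξ = n ξ := by
    intro η hη
    have : ∀ ξ ∈ irrs G, ∃ n : ℕ, ip (ind M η) ξ = n := fun ξ hξ => by
      rw [frob M η (mem_irrs.1 hξ).isChar.isClass]
      exact hη.isChar.ip_nat ((mem_irrs.1 hξ).isChar.comp _)
    choose! n hn using this
    exact ⟨n, hn⟩
  obtain ⟨n, hn⟩ := h3 ψ hψ
  obtain ⟨n', hn'⟩ := h3 ψ' hψ'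
  have h4 : ∀ ξ ∈ irrs G, n ξ * n' ξ = 0 := by
    rw [expand (ind_class M ψ), ip_sum] at h2
    have : ((∑ ξ ∈ irrs G, n ξ * n' ξ : ℕ) : ℂ) = 0 := by
      rw [← h2]
      push_cast
      exact Finset.sum_congr rfl fun ξ hξ => by rw [ip_smul, ip_comm ξ, hn ξ hξ, hn' ξ hξ]
    exact Finset.sum_eq_zero_iff.1 (by exact_mod_cast this)
  have h5 : ∀ ξ ∈ irrs G, n ξ = if χ = ξ then 1 else 0 := by
    intro ξ hξ
    have e := congrArg (fun f => ip f ξ) h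
    simp only [ip_sub, hn ξ hξ, hn' ξ hξ, hχ.ip_eq (mem_irrs.1 hξ),
      hχ'.ip_eq (mem_irrs.1 hξ)] at e
    have e2 := h4 ξ hξ
    split_ifs at e ⊢ with a b b
    · exact absurd (a.trans b.symm) hne
    · have : n ξ = n' ξ + 1 := by
        have : (n ξ : ℂ) = n' ξ + 1 := by linear_combination e
        exact_mod_cast this
      rcases Nat.mul_eq_zero.1 e2 with h | h <;> omega
    · have : n ξ + 1 = n' ξ := by
        have : (n ξ : ℂ) + 1 = n' ξ := by linear_combination e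
        exact_mod_cast this
      rcases Nat.mul_eq_zero.1 e2 with h | h <;> omega
    · have : n ξ = n' ξ := by
        have : (n ξ : ℂ) = n' ξ := by linear_combination e
        exact_mod_cast this
      rcases Nat.mul_eq_zero.1 e2 with h | h <;> omega
  rw [expand (ind_class M ψ), Finset.sum_eq_single χ]
  · rw [hn χ (mem_irrs.2 hχ), h5 χ (mem_irrs.2 hχ)]; simp
  · intro ξ hξ e
    rw [hn ξ hξ, h5 ξ hξ, if_neg e.symm]; simp
  · exact fun e => absurd (mem_irrs.2 hχ) e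

theorem concl_of_ti {χ : G → ℂ} (hχ : IsIrr χ)
    (hprim : ¬ ∃ (K : Subgroup G) (W : FDRep ℂ K), K ≠ ⊤ ∧ ∀ g, χ g = ind K W.character g)
    (M : Subgroup G) (hM : IsCoatom M) (A : Set G) (hAM : ∀ a ∈ A, a ∈ M)
    (hAc : ∀ a ∈ A, ∀ y ∈ M, y * a * y⁻¹ ∈ A) (hTI : ∀ a ∈ A, ∀ y, y * a * y⁻¹ ∈ A → y ∈ M)
    (φ0 : ℂ →+* ℂ) (hne : ∃ a ∈ A, φ0 (χ a) ≠ χ a)
    (hint : ∀ η : M → ℂ, IsIrr η →
      ∃ z : ℤ, ip (fun x : M => if (x : G) ∈ A then χ x - φ0 (χ x) else 0) η = z) : Concl χ := by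
  obtain ⟨ψ, ψ', hψ, hψ', hF, hsupp, hfield⟩ := main hχ M A hAM hAc hTI φ0 hne hint
  rcases (hM.le_iff.1 (Subgroup.le_normalizer (H := M))) with h | h
  · haveI := Subgroup.normalizer_eq_top_iff.1 h
    obtain ⟨a0, -, h0⟩ := hne
    have h1 := induced_of_normal M hχ (hχ.twist φ0) (fun e => h0 (congrFun e a0).symm) hψ hψ' (by
      ext g
      have h2 : ∀ x : G, (if h : x * g * x⁻¹ ∈ M then ψ ⟨x * g * x⁻¹, h⟩ else 0) -
          (if h : x * g * x⁻¹ ∈ M then ψ' ⟨x * g * x⁻¹, h⟩ else 0) =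
          if x * g * x⁻¹ ∈ A then χ g - φ0 (χ g) else 0 := by
        intro x
        by_cases hx : x * g * x⁻¹ ∈ M
        · have := congrFun hF ⟨_, hx⟩
          simp only [Pi.sub_apply, hχ.isChar.isClass g x] at this
          simp only [hx, dite_true, this]
        · simp [hx, mt (hAM _) hx]
      simp only [Pi.sub_apply, ind, ← mul_sub, ← Finset.sum_sub_distrib, h2,
        ti_card M A hAc hTI, Function.comp_apply]
      split_ifs with h3
      · rw [nsmul_eq_mul, inv_mul_cancel_left₀ card_ne]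
      · rw [mul_zero]
        by_contra h4
        exact h3 (hsupp g (Ne.symm h4)))
    obtain ⟨W, -, rfl⟩ := hψ
    exact absurd ⟨M, W, hM.1, congrFun h1⟩ hprim
  · obtain ⟨W, hW, rfl⟩ := hψ
    exact ⟨M, W, hM.1, h, hW, hfield⟩

end Pool.Agent.P.MP_b1ffdf_al
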